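import Pool.Agent.H35.FC.Base
import Pool.Agent.H35.FS.Ctx
import Pool.Agent.H35.FY.Rev

/-!
# All contexts from one tiling

Let `A* = N + S C* P` for a code `C`, where `S`, `P`, `N` are sets of words of bounded length. For
words `g`, `f` we define `A_g`, `B_f`, `N_(g,f)` with `A* = N_(g,f) + A_g C* B_f`.
-/

set_option autoImplicit false

namespace Pool.Agent.H86.OG

open Pool.Agent.H35
open Pool.Agent.H35.FC (IsCode Facts Tiles star_nil star_append star_of_mem split cut)
open Pool.Agent.H35.FS (st_last st_first)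
open Pool.Agent.H35.FY (mem_rev rev_rev mem_star_rev code_rev)

/-- A tiling with words of length at most `L`. -/
structure Base {α : Type} (C S P N : Set (List α)) (L : ℕ) : Prop where
  code : IsCode C
  til : Tiles C S P N
  bC : ∀ w ∈ C, w.length ≤ L
  bS : ∀ w ∈ S, w.length ≤ L
  bP : ∀ w ∈ P, w.length ≤ L
  bN : ∀ w ∈ N, w.length ≤ L

/-- `g ∈ S C*`. -/
def RC {α : Type} (C S : Set (List α)) (g : List α) : Prop :=
  ∃ s ∈ S, ∃ k ∈ FC.Star C, s ++ k = g

/-- `f ∈ C* P`. -/
def LC {α : Type} (C P : Set (List α)) (f : List α) : Prop :=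
  ∃ k ∈ FC.Star C, ∃ p ∈ P, k ++ p = f

/-- The completions of `g`. -/
def Aset {α : Type} (C S : Set (List α)) (g : List α) : Set (List α) :=
  {v | g ++ v ∈ S ∨ ∃ x p : List α, RC C S x ∧ p ≠ [] ∧ g = x ++ p ∧ p ++ v ∈ C}

/-- The completions of `f`, to the left. -/
def Bset {α : Type} (C P : Set (List α)) (f : List α) : Set (List α) :=
  {v | v ++ f ∈ P ∨ ∃ s z : List α, LC C P z ∧ s ≠ [] ∧ f = s ++ z ∧ v ++ s ∈ C}

/-- All other words. -/
def Nset {α : Type} (C S P : Set (List α)) (g f : List α) : Set (List α) :=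
  {w | Facts (Aset C S g) (FC.Star C) (Bset C P f) w = ∅}

section
variable {α : Type} {C S P N : Set (List α)} {L : ℕ}

/-! ### The mirror image -/

theorem lc_iff (f : List α) : LC C P f ↔ RC (List.reverse '' C) (List.reverse '' P) f.reverse := by
  constructor
  · rintro ⟨k, hk, p, hp, rfl⟩
    exact ⟨p.reverse, ⟨p, hp, rfl⟩, k.reverse, (mem_star_rev C _).2 (by
      rwa [List.reverse_reverse]), by rw [List.reverse_append]⟩
  · rintro ⟨s, hs, k, hk, e⟩
    refine ⟨k.reverse, (mem_star_rev C k).1 hk, s.reverse, (mem_rev P s).1 hs, ?_⟩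
    have := congrArg List.reverse e
    rwa [List.reverse_append, List.reverse_reverse] at this

theorem rc_iff (g : List α) : RC C S g ↔ LC (List.reverse '' C) (List.reverse '' S) g.reverse := by
  rw [lc_iff, rev_rev, rev_rev, List.reverse_reverse]

theorem bset_iff (f v : List α) :
    v ∈ Bset C P f ↔ v.reverse ∈ Aset (List.reverse '' C) (List.reverse '' P) f.reverse := by
  constructor
  · rintro (h | ⟨s, z, hz, hs, e, hc⟩)
    · left
      rw [← List.reverse_append]
      exact ⟨_, h, rfl⟩
    · right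
      refine ⟨z.reverse, s.reverse, (lc_iff z).1 hz, by simpa using hs, by
        rw [e, List.reverse_append], ?_⟩
      rw [← List.reverse_append]
      exact ⟨_, hc, rfl⟩
  · rintro (h | ⟨x, p, hx, hp, e, hc⟩)
    · left
      rw [← List.reverse_append, mem_rev, List.reverse_reverse] at h
      exact h
    · right
      have e' := congrArg List.reverse e
      rw [List.reverse_append, List.reverse_reverse] at e'
      refine ⟨p.reverse, x.reverse, ?_, by simpa using hp, e', ?_⟩
      · rw [lc_iff, List.reverse_reverse]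
        exact hx
      · rw [mem_rev, List.reverse_append, List.reverse_reverse] at hc
        exact hc

theorem aset_iff (g v : List α) :
    v ∈ Aset C S g ↔ v.reverse ∈ Bset (List.reverse '' C) (List.reverse '' S) g.reverse := by
  rw [bset_iff, rev_rev, rev_rev, List.reverse_reverse, List.reverse_reverse]

/-- The factorizations of the reversed word. -/
theorem facts_rev (K : Set (List α)) (S P : Set (List α)) (hK : ∀ w, w ∈ K ↔ w.reverse ∈ FC.Star C)
    (w : List α) (t : List α × List α × List α) :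
    t ∈ Facts (List.reverse '' P) K (List.reverse '' S) w ↔
      (t.2.2.reverse, t.2.1.reverse, t.1.reverse) ∈ Facts S (FC.Star C) P w.reverse := by
  constructor
  · rintro ⟨h1, h2, h3, h4⟩
    refine ⟨(mem_rev S _).1 h3, (hK _).1 h2, (mem_rev P _).1 h1, ?_⟩
    simp only
    rw [← h4]
    simp only [List.reverse_append, List.append_assoc]
  · rintro ⟨h1, h2, h3, h4⟩
    refine ⟨(mem_rev P _).2 h3, (hK _).2 h2, (mem_rev S _).2 h1, ?_⟩
    simp only at h4
    have h5 := congrArg List.reverse h4
    simpa only [List.reverse_append, List.reverse_reverse, List.append_assoc] using h5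

theorem tiles_rev (h : Tiles C S P N) :
    Tiles (List.reverse '' C) (List.reverse '' P) (List.reverse '' S) (List.reverse '' N) := by
  have hK : ∀ w, w ∈ FC.Star (List.reverse '' C) ↔ w.reverse ∈ FC.Star C := mem_star_rev C
  intro w
  refine ⟨fun hw => ?_, fun hw => ?_⟩
  · rw [Set.eq_empty_iff_forall_notMem]
    intro t ht
    have h1 := (facts_rev _ S P hK w t).1 ht
    rw [(h w.reverse).1 ((mem_rev N w).1 hw)] at h1
    exact h1
  · obtain ⟨⟨x, k, z⟩, ht, hu⟩ := (h w.reverse).2 (fun h' => hw ((mem_rev N w).2 h'))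
    refine ⟨(z.reverse, k.reverse, x.reverse), ?_, ?_⟩
    · refine (facts_rev _ S P hK w _).2 ?_
      simpa only [List.reverse_reverse] using ht
    · rintro ⟨x', k', z'⟩ ht'
      have h1 := hu _ ((facts_rev _ S P hK w _).1 ht')
      simp only [Prod.mk.injEq] at h1 ⊢
      obtain ⟨h2, h3, h4⟩ := h1
      rw [← h2, ← h3, ← h4]
      simp only [List.reverse_reverse, and_self]

theorem Base.rev (hB : Base C S P N L) : Base (List.reverse '' C) (List.reverse '' P)
    (List.reverse '' S) (List.reverse '' N) L := by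
  have h1 : ∀ K : Set (List α), (∀ w ∈ K, w.length ≤ L) →
      ∀ w ∈ List.reverse '' K, w.length ≤ L := by
    rintro K hK w ⟨v, hv, rfl⟩
    rw [List.length_reverse]
    exact hK v hv
  exact ⟨code_rev hB.code, tiles_rev hB.til, h1 _ hB.bC, h1 _ hB.bP, h1 _ hB.bS, h1 _ hB.bN⟩

/-! ### Left contexts -/

theorem rc_of_aset {g v : List α} (hv : v ∈ Aset C S g) : RC C S (g ++ v) := by
  rcases hv with h | ⟨x, p, ⟨s, hs, k, hk, e⟩, hp, rfl, hc⟩
  · exact ⟨g ++ v, h, [], star_nil, by simp⟩
  · exact ⟨s, hs, k ++ (p ++ v), star_append hk (star_of_mem hc), by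
      rw [← e]; simp only [List.append_assoc]⟩

theorem rc_star {g c : List α} (hg : RC C S g) (hc : c ∈ FC.Star C) : RC C S (g ++ c) := by
  obtain ⟨s, hs, k, hk, rfl⟩ := hg
  exact ⟨s, hs, k ++ c, star_append hk hc, by simp only [List.append_assoc]⟩

theorem lc_of_bset {f v : List α} (hv : v ∈ Bset C P f) : LC C P (v ++ f) := by
  rw [bset_iff] at hv
  have := rc_of_aset hv
  rw [lc_iff, List.reverse_append]
  exact this

theorem lc_star {f c : List α} (hc : c ∈ FC.Star C) (hf : LC C P f) : LC C P (c ++ f) := by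
  obtain ⟨k, hk, p, hp, rfl⟩ := hf
  exact ⟨c ++ k, star_append hc hk, p, hp, by simp only [List.append_assoc]⟩

/-- Words of `C*` after a context. -/
theorem facA (hC : IsCode C) {g w : List α} (hw : RC C S (g ++ w)) :
    ∃ s ∈ Aset C S g, ∃ c ∈ FC.Star C, s ++ c = w := by
  obtain ⟨s, hs, k, hk, e⟩ := hw
  rcases List.append_eq_append_iff.1 e with ⟨t, e1, e2⟩ | ⟨t, e1, e2⟩
  · -- `g = s ++ t`, `k = t ++ w`
    rw [e2] at hk
    rcases split α C t w hk with ⟨h1, h2⟩ | ⟨X, p, s', Y, hX, hY, hp, hs', hc, e3, e4⟩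
    · refine ⟨[], ?_, w, h2, by simp⟩
      rcases eq_or_ne t [] with rfl | ht
      · left
        rw [List.append_nil] at e1 ⊢
        rw [e1]
        exact hs
      · right
        obtain ⟨x, p, hx, hp, e3⟩ := st_last h1 ht
        refine ⟨s ++ x, p, ⟨s, hs, x, hx, rfl⟩, ?_, ?_, by simpa using hp⟩
        · rintro rfl
          exact hC.1 hp
        · rw [e1, e3, List.append_assoc]
    · refine ⟨s', Or.inr ⟨s ++ X, p, ⟨s, hs, X, hX, rfl⟩, hp, ?_, hc⟩, Y, hY, e4.symm⟩
      rw [e1, e3, List.append_assoc]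
  · -- `s = g ++ t`, `w = t ++ k`
    refine ⟨t, Or.inl ?_, k, hk, e2.symm⟩
    rw [← e1]
    exact hs

theorem facB (hC : IsCode C) {w f : List α} (hw : LC C P (w ++ f)) :
    ∃ c ∈ FC.Star C, ∃ t ∈ Bset C P f, c ++ t = w := by
  rw [lc_iff, List.reverse_append] at hw
  obtain ⟨s, hs, c, hc, e⟩ := facA (code_rev hC) hw
  refine ⟨c.reverse, (mem_star_rev C c).1 hc, s.reverse, ?_, ?_⟩
  · rw [bset_iff, List.reverse_reverse]
    exact hs
  · have := congrArg List.reverse e
    rwa [List.reverse_append, List.reverse_reverse] at this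

theorem nil_mem_aset (hC : IsCode C) {g : List α} : [] ∈ Aset C S g ↔ RC C S g := by
  constructor
  · intro h
    have := rc_of_aset h
    rwa [List.append_nil] at this
  · intro h
    obtain ⟨s, hs, c, hc, e⟩ := facA (w := []) hC (by rwa [List.append_nil])
    rw [List.append_eq_nil_iff] at e
    rwa [e.1] at hs

theorem nil_mem_bset (hC : IsCode C) {f : List α} : [] ∈ Bset C P f ↔ LC C P f := by
  rw [bset_iff, lc_iff, List.reverse_nil]
  exact nil_mem_aset (code_rev hC)

/-- The completions after a longer context. -/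
theorem mem_aset_append {g z v : List α} :
    v ∈ Aset C S (g ++ z) ↔ z ++ v ∈ Aset C S g ∨
      ∃ z1 z2, z = z1 ++ z2 ∧ z2 ≠ [] ∧ RC C S (g ++ z1) ∧ z2 ++ v ∈ C := by
  constructor
  · rintro (h | ⟨x, p, hx, hp, e, hc⟩)
    · left
      left
      rwa [← List.append_assoc]
    · rcases List.append_eq_append_iff.1 e with ⟨t, e1, e2⟩ | ⟨t, e1, e2⟩
      · -- `x = g ++ t`, `z = t ++ p`
        right
        exact ⟨t, p, e2, hp, by rw [← e1]; exact hx, hc⟩
      · -- `g = x ++ t`, `p = t ++ z`
        rcases eq_or_ne t [] with rfl | ht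
        · right
          refine ⟨[], p, by simpa using e2.symm, hp, ?_, hc⟩
          rw [List.append_nil, e1, List.append_nil]
          exact hx
        · left
          right
          refine ⟨x, t, hx, ht, e1, ?_⟩
          rw [← List.append_assoc, ← e2]
          exact hc
  · rintro ((h | ⟨x, p, hx, hp, e, hc⟩) | ⟨z1, z2, rfl, hz, hr, hc⟩)
    · left
      rwa [List.append_assoc]
    · right
      refine ⟨x, p ++ z, hx, by simp [hp], ?_, by rwa [List.append_assoc]⟩
      rw [e, List.append_assoc]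
    · right
      exact ⟨g ++ z1, z2, hr, hz, by simp only [List.append_assoc], hc⟩

theorem mem_bset_append {f z v : List α} :
    v ∈ Bset C P (z ++ f) ↔ v ++ z ∈ Bset C P f ∨
      ∃ z1 z2, z = z1 ++ z2 ∧ z1 ≠ [] ∧ LC C P (z2 ++ f) ∧ v ++ z1 ∈ C := by
  rw [bset_iff, List.reverse_append, mem_aset_append, bset_iff, List.reverse_append]
  refine or_congr Iff.rfl ?_
  constructor
  · rintro ⟨z1, z2, e, hz, hr, hc⟩
    refine ⟨z2.reverse, z1.reverse, ?_, by simpa using hz, ?_, ?_⟩
    · have := congrArg List.reverse e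
      rwa [List.reverse_append, List.reverse_reverse] at this
    · rw [lc_iff, List.reverse_append, List.reverse_reverse]
      exact hr
    · rw [mem_rev, List.reverse_append, List.reverse_reverse] at hc
      exact hc
  · rintro ⟨z1, z2, rfl, hz, hr, hc⟩
    refine ⟨z2.reverse, z1.reverse, by rw [List.reverse_append], by simpa using hz, ?_, ?_⟩
    · rw [lc_iff, List.reverse_append] at hr
      exact hr
    · rw [← List.reverse_append]
      exact ⟨_, hc, rfl⟩

/-! ### Cuts -/

/-- A codeword does not cross a cut. -/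
theorem cutT (hB : Base C S P N L) {a b x c z : List α} (ha : RC C S a) (hb : LC C P b)
    (hx : RC C S x) (hc : c ∈ C) (hz : LC C P z) (e : a ++ b = x ++ (c ++ z)) :
    a.length ≤ x.length ∨ x.length + c.length ≤ a.length := by
  obtain ⟨s, hs, k, hk, rfl⟩ := ha
  obtain ⟨k', hk', p, hp, rfl⟩ := hb
  obtain ⟨s1, hs1, k1, hk1, rfl⟩ := hx
  obtain ⟨k2, hk2, p1, hp1, rfl⟩ := hz
  have h1 : (s, k ++ k', p) ∈ Facts S (FC.Star C) P ((s ++ k) ++ (k' ++ p)) :=
    ⟨hs, star_append hk hk', hp, by simp only [List.append_assoc]⟩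
  have h2 : (s1, k1 ++ (c ++ k2), p1) ∈ Facts S (FC.Star C) P ((s ++ k) ++ (k' ++ p)) :=
    ⟨hs1, star_append hk1 (star_append (star_of_mem hc) hk2), hp1, by
      rw [e]; simp only [List.append_assoc]⟩
  have hN : (s ++ k) ++ (k' ++ p) ∉ N := by
    intro h
    rw [(hB.til _).1 h] at h1
    exact h1
  have h3 := ((hB.til _).2 hN).unique h1 h2
  simp only [Prod.mk.injEq] at h3
  obtain ⟨rfl, h4, rfl⟩ := h3
  have h5 := cut α C hB.code k k' k1 c k2 hk hk' hk1 hc hk2 h4
  simp only [List.length_append]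
  omega

/-- A word of `S` does not cross a cut. -/
theorem cutS (hB : Base C S P N L) {a b s z : List α} (ha : RC C S a) (hb : LC C P b)
    (hs : s ∈ S) (hz : LC C P z) (e : a ++ b = s ++ z) : s.length ≤ a.length := by
  obtain ⟨s0, hs0, k, hk, rfl⟩ := ha
  obtain ⟨k', hk', p, hp, rfl⟩ := hb
  obtain ⟨k2, hk2, p1, hp1, rfl⟩ := hz
  have h1 : (s0, k ++ k', p) ∈ Facts S (FC.Star C) P ((s0 ++ k) ++ (k' ++ p)) :=
    ⟨hs0, star_append hk hk', hp, by simp only [List.append_assoc]⟩
  have h2 : (s, k2, p1) ∈ Facts S (FC.Star C) P ((s0 ++ k) ++ (k' ++ p)) :=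
    ⟨hs, hk2, hp1, by rw [e]⟩
  have hN : (s0 ++ k) ++ (k' ++ p) ∉ N := by
    intro h
    rw [(hB.til _).1 h] at h1
    exact h1
  have h3 := ((hB.til _).2 hN).unique h1 h2
  simp only [Prod.mk.injEq] at h3
  obtain ⟨rfl, h4, rfl⟩ := h3
  rw [List.length_append]
  omega

/-- A completion does not cross a cut. -/
theorem acut (hB : Base C S P N L) {g v1 v2 t : List α} (hv : v1 ++ v2 ∈ Aset C S g)
    (h2 : v2 ≠ []) (hr : RC C S (g ++ v1)) (h3 : LC C P (v2 ++ t)) (h4 : LC C P t) : False := by
  have hl2 := List.length_pos_iff.2 h2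
  rcases hv with h | ⟨x, p, hx, hp, rfl, hc⟩
  · have := cutS hB hr h3 h h4 (by simp only [List.append_assoc])
    simp only [List.length_append] at this
    omega
  · have := cutT hB hr h3 hx hc h4 (by simp only [List.append_assoc])
    have hlp := List.length_pos_iff.2 hp
    simp only [List.length_append] at this
    omega

/-! ### The tilings -/

theorem fact_le (hB : Base C S P N L) {g f w : List α} {t t' : List α × List α × List α}
    (ht : t ∈ Facts (Aset C S g) (FC.Star C) (Bset C P f) w)
    (ht' : t' ∈ Facts (Aset C S g) (FC.Star C) (Bset C P f) w) :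
    t'.1.length ≤ t.1.length := by
  obtain ⟨a, c, b⟩ := t
  obtain ⟨a', c', b'⟩ := t'
  obtain ⟨h1, h2, h3, h4⟩ := ht
  obtain ⟨h1', h2', h3', h4'⟩ := ht'
  simp only at h1 h2 h3 h4 h1' h2' h3' h4' ⊢
  by_contra hcon
  push Not at hcon
  have e := h4.trans h4'.symm
  rcases List.append_eq_append_iff.1 e with ⟨u, e1, e2⟩ | ⟨u, e1, e2⟩
  · -- `a' = a ++ u`, `c ++ b = u ++ (c' ++ b')`
    have hu : u ≠ [] := by
      rintro rfl
      rw [e1, List.append_nil] at hcon
      omega
    rw [e1] at h1'
    refine acut hB (t := (c' ++ b') ++ f) h1' hu (rc_of_aset h1) ?_ ?_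
    · rw [← List.append_assoc, ← e2, List.append_assoc]
      exact lc_star h2 (lc_of_bset h3)
    · rw [List.append_assoc]
      exact lc_star h2' (lc_of_bset h3')
  · rw [e1, List.length_append] at hcon
    omega

theorem facts_iff_rev (g f w : List α) (t : List α × List α × List α) :
    t ∈ Facts (Aset C S g) (FC.Star C) (Bset C P f) w ↔
      (t.2.2.reverse, t.2.1.reverse, t.1.reverse) ∈
        Facts (Aset (List.reverse '' C) (List.reverse '' P) f.reverse)
          (FC.Star (List.reverse '' C)) (Bset (List.reverse '' C) (List.reverse '' S) g.reverse)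
          w.reverse := by
  obtain ⟨a, c, b⟩ := t
  constructor
  · rintro ⟨h1, h2, h3, h4⟩
    refine ⟨(bset_iff f b).1 h3, ?_, (aset_iff g a).1 h1, ?_⟩
    · rw [mem_star_rev]
      simpa using h2
    · simp only at h4 ⊢
      rw [← h4]
      simp only [List.reverse_append, List.append_assoc]
  · rintro ⟨h1, h2, h3, h4⟩
    simp only at h1 h2 h3 h4
    refine ⟨(aset_iff g a).2 h3, ?_, (bset_iff f b).2 h1, ?_⟩
    · rw [mem_star_rev] at h2
      simpa using h2
    · simp only
      have h5 := congrArg List.reverse h4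
      simpa only [List.reverse_append, List.reverse_reverse, List.append_assoc] using h5

theorem fact_unique (hB : Base C S P N L) {g f w : List α} {t t' : List α × List α × List α}
    (ht : t ∈ Facts (Aset C S g) (FC.Star C) (Bset C P f) w)
    (ht' : t' ∈ Facts (Aset C S g) (FC.Star C) (Bset C P f) w) : t = t' := by
  have h1 := le_antisymm (fact_le hB ht' ht) (fact_le hB ht ht')
  have h2 := fact_le hB.rev ((facts_iff_rev g f w t).1 ht) ((facts_iff_rev g f w t').1 ht')
  have h3 := fact_le hB.rev ((facts_iff_rev g f w t').1 ht') ((facts_iff_rev g f w t).1 ht)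
  obtain ⟨a, c, b⟩ := t
  obtain ⟨a', c', b'⟩ := t'
  have e := ht.2.2.2.trans ht'.2.2.2.symm
  simp only [List.length_reverse] at h1 h2 h3 e
  obtain ⟨rfl, e2⟩ := List.append_inj e h1
  obtain ⟨rfl, rfl⟩ := List.append_inj' e2 (by omega)
  rfl

theorem partP (hB : Base C S P N L) (g f : List α) :
    Tiles C (Aset C S g) (Bset C P f) (Nset C S P g f) := by
  intro w
  refine ⟨fun h => h, fun h => ?_⟩
  obtain ⟨t, ht⟩ := Set.nonempty_iff_ne_empty.2 h
  exact ⟨t, ht, fun t' ht' => fact_unique hB ht' ht⟩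

theorem ncut {g f u1 u2 : List α} (hC : IsCode C) (hu : u1 ++ u2 ∈ Nset C S P g f)
    (h1 : RC C S (g ++ u1)) (h2 : LC C P (u2 ++ f)) : False := by
  obtain ⟨s, hs, c, hc, rfl⟩ := facA hC h1
  obtain ⟨c', hc', t, ht, rfl⟩ := facB hC h2
  have h3 : (s, c ++ c', t) ∈ Facts (Aset C S g) (FC.Star C) (Bset C P f)
      ((s ++ c) ++ (c' ++ t)) :=
    ⟨hs, star_append hc hc', ht, by simp only [List.append_assoc]⟩
  rw [Nset, Set.mem_ofPred_eq] at hu
  rw [hu] at h3
  exact h3

/-! ### Bounds -/

theorem aset_le (hB : Base C S P N L) {g v : List α} (hv : v ∈ Aset C S g) : v.length ≤ L := by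
  rcases hv with h | ⟨x, p, -, -, -, hc⟩
  · have := hB.bS _ h
    rw [List.length_append] at this
    omega
  · have := hB.bC _ hc
    rw [List.length_append] at this
    omega

theorem bset_le (hB : Base C S P N L) {f v : List α} (hv : v ∈ Bset C P f) : v.length ≤ L := by
  rw [bset_iff] at hv
  have := aset_le hB.rev hv
  rwa [List.length_reverse] at this

/-- A long word has a cut. -/
theorem exists_fact (hB : Base C S P N L) (g f : List α) {w : List α} (hw : L < w.length) :
    ∃ t, t ∈ Facts (Aset C S g) (FC.Star C) (Bset C P f) w := by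
  have hN : g ++ (w ++ f) ∉ N := by
    intro h
    have := hB.bN _ h
    rw [List.length_append, List.length_append] at this
    omega
  obtain ⟨⟨s, k, p⟩, ⟨hs, hk, hp, e⟩, -⟩ := (hB.til _).2 hN
  simp only at hs hk hp e
  have key : ∃ a ∈ Aset C S g, ∃ w', w = a ++ w' ∧ LC C P (w' ++ f) := by
    rcases List.append_eq_append_iff.1 e with ⟨t, e1, e2⟩ | ⟨t, e1, e2⟩
    · -- `g = s ++ t`, `k ++ p = t ++ (w ++ f)`
      rcases List.append_eq_append_iff.1 e2 with ⟨t', e3, e4⟩ | ⟨t', e3, e4⟩
      · -- `t = k ++ t'`, `p = t' ++ (w ++ f)`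
        exfalso
        have := hB.bP _ hp
        rw [e4, List.length_append, List.length_append] at this
        omega
      · -- `k = t ++ t'`, `w ++ f = t' ++ p`
        have hR : RC C S (g ++ t') := ⟨s, hs, k, hk, by rw [e1, e3]; simp only [List.append_assoc]⟩
        rw [e3] at hk
        rcases split α C t t' hk with ⟨h1, h2⟩ | ⟨X, q, s', Y, hX, hY, hq, hs', hc, e5, e6⟩
        · refine ⟨[], (nil_mem_aset hB.code).2 ⟨s, hs, t, h1, e1.symm⟩, w, by simp, t', h2, p, hp,
            e4.symm⟩
        · have ha : s' ∈ Aset C S g := Or.inr ⟨s ++ X, q, ⟨s, hs, X, hX, rfl⟩, hq, by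
            rw [e1, e5, List.append_assoc], hc⟩
          have hl := aset_le hB ha
          rw [e6, List.append_assoc] at e4
          rcases List.append_eq_append_iff.1 e4 with ⟨u, e7, e8⟩ | ⟨u, e7, e8⟩
          · exfalso
            have := congrArg List.length e7
            rw [List.length_append] at this
            omega
          · exact ⟨s', ha, u, e7, Y, hY, p, hp, e8⟩
    · -- `s = g ++ t`, `w ++ f = t ++ (k ++ p)`
      have ha : t ∈ Aset C S g := Or.inl (by rw [← e1]; exact hs)
      have hl := aset_le hB ha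
      rcases List.append_eq_append_iff.1 e2 with ⟨u, e7, e8⟩ | ⟨u, e7, e8⟩
      · exfalso
        have := congrArg List.length e7
        rw [List.length_append] at this
        omega
      · exact ⟨t, ha, u, e7, k, hk, p, hp, e8⟩
  obtain ⟨a, ha, w', rfl, hL⟩ := key
  obtain ⟨c, hc, t, ht, rfl⟩ := facB hB.code hL
  exact ⟨(a, c, t), ha, hc, ht, rfl⟩

theorem nset_le (hB : Base C S P N L) {g f w : List α} (hw : w ∈ Nset C S P g f) :
    w.length ≤ L := by
  by_contra h
  push Not at h
  obtain ⟨t, ht⟩ := exists_fact hB g f h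
  rw [Nset, Set.mem_ofPred_eq] at hw
  rw [hw] at ht
  exact ht

theorem aset_finite [Finite α] (hB : Base C S P N L) (g : List α) : (Aset C S g).Finite :=
  (List.finite_length_le α L).subset fun _ hv => aset_le hB hv

theorem bset_finite [Finite α] (hB : Base C S P N L) (f : List α) : (Bset C P f).Finite :=
  (List.finite_length_le α L).subset fun _ hv => bset_le hB hv

theorem nset_finite [Finite α] (hB : Base C S P N L) (g f : List α) :
    (Nset C S P g f).Finite :=
  (List.finite_length_le α L).subset fun _ hv => nset_le hB hv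

theorem aset_nonempty [Nonempty α] (hB : Base C S P N L) (g : List α) :
    (Aset C S g).Nonempty := by
  obtain ⟨x⟩ := ‹Nonempty α›
  obtain ⟨t, ht⟩ := exists_fact hB g [] (w := List.replicate (L + 1) x) (by simp)
  exact ⟨t.1, ht.1⟩

theorem bset_nonempty [Nonempty α] (hB : Base C S P N L) (f : List α) :
    (Bset C P f).Nonempty := by
  obtain ⟨x⟩ := ‹Nonempty α›
  obtain ⟨t, ht⟩ := exists_fact hB [] f (w := List.replicate (L + 1) x) (by simp)
  exact ⟨t.2.2, ht.2.2.1⟩

/-! ### Letters -/

theorem A_cnt [DecidableEq α] {y : α} {d : ℕ} (hd : ∀ c ∈ C, c.count y ≤ d)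
    (hdS : ∀ s ∈ S, s.count y ≤ d) {g v : List α} (hv : v ∈ Aset C S (g ++ [y])) :
    1 + v.count y ≤ d := by
  rcases hv with h | ⟨x, p, -, hp, e, hc⟩
  · have := hdS _ h
    rw [List.count_append, List.count_append, List.count_singleton_self] at this
    omega
  · have h1 := hd _ hc
    rcases List.eq_nil_or_concat p with h | ⟨p', b, h⟩
    · exact absurd h hp
    · rw [List.concat_eq_append] at h
      subst h
      rw [← List.append_assoc] at e
      have h3 := (List.append_inj' e rfl).2
      have h4 : y = b := by simpa using h3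
      subst h4
      rw [List.count_append, List.count_append, List.count_singleton_self] at h1
      omega

theorem B_cnt [DecidableEq α] {y : α} {d : ℕ} (hd : ∀ c ∈ C, c.count y ≤ d)
    (hdP : ∀ s ∈ P, s.count y ≤ d) {f v : List α} (hv : v ∈ Bset C P (y :: f)) :
    1 + v.count y ≤ d := by
  rw [bset_iff, List.reverse_cons] at hv
  have h1 : ∀ K : Set (List α), (∀ w ∈ K, w.count y ≤ d) →
      ∀ w ∈ List.reverse '' K, w.count y ≤ d := by
    rintro K hK w ⟨v, hv, rfl⟩
    rw [List.count_reverse]
    exact hK v hv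
  have := A_cnt (h1 _ hd) (h1 _ hdP) hv
  rwa [List.count_reverse] at this

end

end Pool.Agent.H86.OG
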