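import Pool.Agent.H86.OG.Asm
import Pool.Agent.H47.OP.E3
import Pool.Agent.H89.ML.Ctx

/-!
# One tiling for every finite complete code
-/

set_option autoImplicit false

namespace Pool.Agent.H86.OG

open Pool.Agent.H35
open Pool.Agent.H35.FS (st_last)

/-- Every finite complete code has a tiling. -/
theorem tilP : STil := by
  intro α _ _ hα C hC hcomp
  have hCne : (C : Set (List α)).Nonempty := by
    obtain ⟨z⟩ := hα
    obtain ⟨u, v, h⟩ := hcomp [z]
    obtain ⟨x, p, -, hp, -⟩ := st_last h (by simp)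
    exact ⟨p, hp⟩
  obtain ⟨l, r, hl, hl0, h⟩ := H89.ML.ctx C.finite_toSet hC hCne (fun w => by
    obtain ⟨u, v, h⟩ := hcomp w
    exact ⟨u, v, by rw [List.append_assoc]; exact h⟩)
  have hS : H47.OP.Ctx (C : Set (List α)) l r := by
    refine ⟨C.finite_toSet, hC, hl, hl0, fun w => ?_, fun w v v' h1 h2 h3 h4 => ?_⟩
    · obtain ⟨v, hv, -⟩ := h w
      exact ⟨v, hv⟩
    · exact (h w).unique ⟨h1, h2⟩ ⟨h3, h4⟩
  obtain ⟨S, P, N, h1, h2, h3, -⟩ := H47.OP.exists_tiling_of_ctx hS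
  exact ⟨S, P, N, h1, h2, h3⟩

end Pool.Agent.H86.OG
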