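import Pool.Agent.H72.OF.Alg

/-!
# A letter which occurs at most twice
-/

set_option autoImplicit false

namespace Pool.Agent.H86.OG

open MvPolynomial
open Pool.Agent.H35
open Pool.Agent.H35.FC (gf)

theorem twice_missing {α : Type} [Fintype α] [DecidableEq α] {C : Finset (List α)} {y : α}
    (hle : ∀ w ∈ C, w.count y ≤ 2) (F G : MvPolynomial α ℤ)
    (h : 1 - gf C = (1 - ∑ x : α, (X x : MvPolynomial α ℤ)) * (F * G)) :
    degreeOf y F = 0 ∨ degreeOf y G = 0 := by
  by_cases hF : F = 0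
  · left
    rw [hF, degreeOf_zero]
  by_cases hG : G = 0
  · right
    rw [hG, degreeOf_zero]
  have h1 : degreeOf y (1 - gf C) ≤ 2 := by
    refine (degreeOf_sub_le y _ _).trans ?_
    rw [max_le_iff]
    refine ⟨?_, H72.OF.degreeOf_gf_le hle⟩
    rw [degreeOf_one]
    exact Nat.zero_le 2
  have hos : (1 - ∑ x : α, (X x : MvPolynomial α ℤ)) = H72.OF.os α := rfl
  rw [h, hos, degreeOf_mul_eq (H72.OF.os_ne_zero y) (mul_ne_zero hF hG), H72.OF.degreeOf_os,
    degreeOf_mul_eq hF hG] at h1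
  omega

end Pool.Agent.H86.OG
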