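import Pool.Agent.H86.OG.Core
import Pool.Agent.H86.OF.Asm

/-!
# Assembly, all finite maximal codes
-/

set_option autoImplicit false

namespace Pool.Agent.H86.OG

open MvPolynomial
open Pool.Agent.H35
open Pool.Agent.H35.FC (IsCode IsPrefixCode Facts Tiles gf SGf STree of_tiles)
open Pool.Agent.H35.FS (SDeg SMax st_last)
open Pool.Agent.H35.FY (mem_rev mem_star_rev code_rev)

/-- The existence of one tiling. -/
def STil : Prop := ∀ (α : Type) [Fintype α] [DecidableEq α] [Nonempty α] (C : Finset (List α)),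
  IsCode (C : Set (List α)) → (∀ w : List α, ∃ u v, u ++ (w ++ v) ∈ FC.Star (C : Set (List α))) →
  ∃ S P N : Finset (List α), Tiles (C : Set (List α)) S P N ∧ (∀ s ∈ S, ∃ p, p ++ s ∈ C) ∧
    ∀ t ∈ P, ∃ s, t ++ s ∈ C

/-- The left side. -/
theorem sideA {α : Type} [Finite α] [DecidableEq α] {C S P N : Set (List α)} {L : ℕ} {y : α}
    {d : ℕ} (hB : Base C S P N L) (hd2 : 2 ≤ d) (hdle : ∀ w ∈ C, w.count y ≤ d)
    (hdS : ∀ w ∈ S, w.count y ≤ d) (hPne : P.Nonempty)
    (hne : (Nset C S P ([] ++ [y]) []).Nonempty)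
    (hcard : ∀ g g' : List α,
      ((aset_finite hB (g ++ [y])).toFinset.filter (fun w => w.count y = d - 1)).card =
      ((aset_finite hB (g' ++ [y])).toFinset.filter (fun w => w.count y = d - 1)).card)
    (hD : ∀ g : List α, ∃ v ∈ Aset C S (g ++ [y]), v.count y = d - 1) :
    ∃ S' P' : Set (List α), S'.Finite ∧ P'.Finite ∧ Tiles C S' P' ∅ := by
  obtain ⟨v, hv, hc⟩ := hD [y]
  exact endP hB hne (leftP hB hd2 hdle hdS hPne
    ⟨v, dset_nonempty hdle hdS hv hc hd2, hc⟩ hcard)

/-- The right side. -/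
theorem sideB {α : Type} [Finite α] [DecidableEq α] {C S P N : Set (List α)} {L : ℕ} {y : α}
    {d : ℕ} (hB : Base C S P N L) (hd2 : 2 ≤ d) (hdle : ∀ w ∈ C, w.count y ≤ d)
    (hdP : ∀ w ∈ P, w.count y ≤ d) (hSne : S.Nonempty)
    (hne : (Nset C S P [] (y :: [])).Nonempty)
    (hcard : ∀ f f' : List α,
      ((bset_finite hB (y :: f)).toFinset.filter (fun w => w.count y = d - 1)).card =
      ((bset_finite hB (y :: f')).toFinset.filter (fun w => w.count y = d - 1)).card)
    (hD : ∀ f : List α, ∃ v ∈ Bset C P (y :: f), v.count y = d - 1) :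
    ∃ S' P' : Set (List α), S'.Finite ∧ P'.Finite ∧ Tiles C S' P' ∅ := by
  have hB' := hB.rev
  have hcnt : ∀ K : Set (List α), (∀ w ∈ K, w.count y ≤ d) →
      ∀ w ∈ List.reverse '' K, w.count y ≤ d := by
    rintro K hK w ⟨v, hv, rfl⟩
    rw [List.count_reverse]
    exact hK v hv
  have hmem : ∀ g w : List α, w ∈ Aset (List.reverse '' C) (List.reverse '' P) (g ++ [y]) ↔
      w.reverse ∈ Bset C P (y :: g.reverse) := by
    intro g w
    rw [bset_iff, List.reverse_reverse, List.reverse_cons, List.reverse_reverse]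
  have hE : ∀ g : List α, ((aset_finite hB' (g ++ [y])).toFinset.filter
      (fun w => w.count y = d - 1)).card = ((bset_finite hB (y :: g.reverse)).toFinset.filter
      (fun w => w.count y = d - 1)).card := by
    intro g
    rw [← Finset.card_image_of_injective ((bset_finite hB (y :: g.reverse)).toFinset.filter
      (fun w => w.count y = d - 1)) List.reverse_injective]
    congr 1
    ext w
    rw [Finset.mem_filter, Set.Finite.mem_toFinset, Finset.mem_image, hmem]
    constructor
    · rintro ⟨h1, h2⟩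
      refine ⟨w.reverse, ?_, List.reverse_reverse w⟩
      rw [Finset.mem_filter, Set.Finite.mem_toFinset, List.count_reverse]
      exact ⟨h1, h2⟩
    · rintro ⟨v, hv, rfl⟩
      rw [Finset.mem_filter, Set.Finite.mem_toFinset] at hv
      rw [List.reverse_reverse, List.count_reverse]
      exact hv
  obtain ⟨S', P', hSf, hPf, hT⟩ := sideA (y := y) (d := d) hB' hd2 (hcnt _ hdle) (hcnt _ hdP)
    (hSne.image _) (by
      by_contra hcon
      rw [Set.not_nonempty_iff_eq_empty] at hcon
      obtain ⟨u, hu⟩ := hne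
      have h1 : u.reverse ∉ Nset (List.reverse '' C) (List.reverse '' P) (List.reverse '' S)
          ([] ++ [y]) [] := by
        rw [hcon]
        exact Set.notMem_empty _
      rw [Nset, Set.mem_ofPred_eq, ← ne_eq, ← Set.nonempty_iff_ne_empty] at h1
      obtain ⟨t, ht⟩ := h1
      rw [Nset, Set.mem_ofPred_eq] at hu
      have h2 : (t.2.2.reverse, t.2.1.reverse, t.1.reverse) ∈
          Facts (Aset C S []) (FC.Star C) (Bset C P (y :: [])) u := by
        rw [facts_iff_rev]
        simpa using ht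
      rw [hu] at h2
      exact h2) (by
      intro g g'
      rw [hE g, hE g']
      exact hcard _ _) (by
      intro g
      obtain ⟨v, hv, hc⟩ := hD g.reverse
      refine ⟨v.reverse, ?_, by rw [List.count_reverse]; exact hc⟩
      rw [hmem, List.reverse_reverse]
      exact hv)
  exact ⟨_, _, hPf.image _, hSf.image _, FY.tiles_rev hT⟩

/-- Such a code is factorizing. -/
theorem factP (hgf : SGf) (hdeg : SDeg) {α : Type} [Fintype α] [DecidableEq α] [Nonempty α]
    {C S P N : Finset (List α)} (hC : IsCode (C : Set (List α))) (hCne : C.Nonempty)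
    (hT : Tiles (C : Set (List α)) S P N) (hS : ∀ s ∈ S, ∃ p, p ++ s ∈ C)
    (hP : ∀ t ∈ P, ∃ s, t ++ s ∈ C)
    (hI : ∀ F G : MvPolynomial α ℤ,
      1 - gf C = (1 - ∑ x : α, (X x : MvPolynomial α ℤ)) * (F * G) →
      ∃ y, degreeOf y F = 0 ∨ degreeOf y G = 0) :
    ∃ S P : Set (List α), S.Finite ∧ P.Finite ∧ Tiles (C : Set (List α)) S P ∅ := by
  obtain ⟨L, hL⟩ : ∃ L : ℕ, ∀ w ∈ C ∪ S ∪ P ∪ N, w.length ≤ L :=
    ⟨(C ∪ S ∪ P ∪ N).sup List.length, fun w hw => Finset.le_sup (f := List.length) hw⟩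
  have hB : Base (C : Set (List α)) (S : Set (List α)) (P : Set (List α)) (N : Set (List α)) L :=
    ⟨hC, hT, fun w hw => hL w (by
      simp only [Finset.mem_union]
      exact Or.inl (Or.inl (Or.inl (by exact_mod_cast hw)))), fun w hw => hL w (by
      simp only [Finset.mem_union]
      exact Or.inl (Or.inl (Or.inr (by exact_mod_cast hw)))), fun w hw => hL w (by
      simp only [Finset.mem_union]
      exact Or.inl (Or.inr (by exact_mod_cast hw))), fun w hw => hL w (by
      simp only [Finset.mem_union]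
      exact Or.inr (by exact_mod_cast hw))⟩
  by_cases hN : ∃ g f, Nset (C : Set (List α)) S P g f = ∅
  · obtain ⟨g, f, hgf⟩ := hN
    refine ⟨Aset C S g, Bset C P f, aset_finite hB g, bset_finite hB f, ?_⟩
    rw [← hgf]
    exact partP hB g f
  have hne : ∀ g f, (Nset (C : Set (List α)) S P g f).Nonempty := by
    intro g f
    rw [Set.nonempty_iff_ne_empty]
    exact fun h => hN ⟨g, f, h⟩
  have hmax : ∀ y : α, ∃ c0 ∈ C, ∀ c ∈ C, c.count y ≤ c0.count y :=
    fun y => Finset.exists_max_image C (fun w => w.count y) hCne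
  choose c0 hc0 hc0max using hmax
  have hcle : ∀ y : α, ∀ w ∈ (C : Set (List α)), w.count y ≤ (c0 y).count y :=
    fun y w hw => hc0max y w (by exact_mod_cast hw)
  have hSle : ∀ y : α, ∀ w ∈ (S : Set (List α)), w.count y ≤ (c0 y).count y := by
    intro y w hw
    obtain ⟨p, hp⟩ := hS w (by exact_mod_cast hw)
    have := hc0max y _ hp
    rw [List.count_append] at this
    omega
  have hPle : ∀ y : α, ∀ w ∈ (P : Set (List α)), w.count y ≤ (c0 y).count y := by
    intro y w hw
    obtain ⟨p, hp⟩ := hP w (by exact_mod_cast hw)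
    have := hc0max y _ hp
    rw [List.count_append] at this
    omega
  have hA1 : ∀ y g, ∀ v ∈ Aset (C : Set (List α)) S (g ++ [y]),
      1 + v.count y ≤ (c0 y).count y := fun y g v hv => A_cnt (hcle y) (hSle y) hv
  have hB1 : ∀ y f, ∀ v ∈ Bset (C : Set (List α)) P (y :: f),
      1 + v.count y ≤ (c0 y).count y := fun y f v hv => B_cnt (hcle y) (hPle y) hv
  have hTF : ∀ g f : List α, ∃ M : Finset (List α), Tiles (C : Set (List α))
      (aset_finite hB g).toFinset (bset_finite hB f).toFinset M := by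
    intro g f
    refine ⟨(nset_finite hB g f).toFinset, ?_⟩
    simpa only [Set.Finite.coe_toFinset] using partP hB g f
  have hd2 : ∀ y : α, 2 ≤ (c0 y).count y := by
    intro y
    obtain ⟨u, hu⟩ := hne ([] ++ [y]) (y :: [])
    obtain ⟨v, hv⟩ := aset_nonempty hB ([] ++ [y])
    have h1 := hA1 y [] v hv
    have ht := partP hB ([] ++ [y]) (y :: [])
    obtain ⟨s, hs, p, hp, hsp⟩ := hdeg α C (aset_finite hB ([] ++ [y])).toFinset
      (bset_finite hB (y :: [])).toFinset (nset_finite hB ([] ++ [y]) (y :: [])).toFinset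
      (FY.om y) y (by simp [FY.om_self]) hC
      (by simpa only [Set.Finite.coe_toFinset] using ht) u
      ((Set.Finite.mem_toFinset _).2 hu) (c0 y) (hc0 y)
    rw [Set.Finite.mem_toFinset] at hs hp
    rw [FY.deg_om, FY.deg_om, FY.deg_om, FY.deg_om] at hsp
    have h2 := hA1 y [] s hs
    have h3 := hB1 y [] p hp
    omega
  obtain ⟨y, ⟨h1, h2⟩ | ⟨h1, h2⟩⟩ := OF.alg2 hgf C hC hI
    (fun g => (aset_finite hB g).toFinset) (fun f => (bset_finite hB f).toFinset)
    hTF
    (fun g => by
      obtain ⟨v, hv⟩ := aset_nonempty hB g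
      exact ⟨v, (Set.Finite.mem_toFinset _).2 hv⟩)
    (fun f => by
      obtain ⟨v, hv⟩ := bset_nonempty hB f
      exact ⟨v, (Set.Finite.mem_toFinset _).2 hv⟩)
    (fun y => (c0 y).count y) hd2 (fun y w hw => hc0max y w hw)
    (fun y => ⟨c0 y, hc0 y, rfl⟩)
    (fun y g v hv => by
      have := hA1 y g v ((Set.Finite.mem_toFinset _).1 hv)
      omega)
    (fun y f v hv => by
      have := hB1 y f v ((Set.Finite.mem_toFinset _).1 hv)
      omega)
  · have hPne : (P : Set (List α)).Nonempty := by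
      obtain ⟨t, ht⟩ := exists_fact hB [] [] (w := List.replicate (L + 1) y) (by simp)
      obtain ⟨k, -, p, hp, -⟩ := lc_of_bset ht.2.2.1
      exact ⟨p, hp⟩
    exact sideA hB (hd2 y) (hcle y) (hSle y) hPne (hne _ _)
      (fun g g' => OF.card_eq y (h1 g g') _)
      (fun g => by
        obtain ⟨v, hv, hc⟩ := h2 g
        exact ⟨v, (Set.Finite.mem_toFinset _).1 hv, hc⟩)
  · have hSne : (S : Set (List α)).Nonempty := by
      obtain ⟨t, ht⟩ := exists_fact hB [] [] (w := List.replicate (L + 1) y) (by simp)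
      obtain ⟨s, hs, -⟩ := rc_of_aset ht.1
      exact ⟨s, hs⟩
    exact sideB hB (hd2 y) (hcle y) (hPle y) hSne (hne _ _)
      (fun f f' => OF.card_eq y (h1 f f') _)
      (fun f => by
        obtain ⟨v, hv, hc⟩ := h2 f
        exact ⟨v, (Set.Finite.mem_toFinset _).1 hv, hc⟩)

theorem assembly (hTil : STil) (hMax : SMax) (hGf : SGf) (hTree : STree) (hdeg : SDeg)
    {α : Type} [Fintype α] [DecidableEq α] (C : Finset (List α))
    (hC : IsCode (C : Set (List α)))
    (hmax : ∀ D : Set (List α), IsCode D → (C : Set (List α)) ⊆ D → D = C)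
    (hI : ∀ F G : MvPolynomial α ℤ,
      1 - gf C = (1 - ∑ x : α, (X x : MvPolynomial α ℤ)) * (F * G) →
      ∃ y, degreeOf y F = 0 ∨ degreeOf y G = 0) :
    (∃ S P : Set (List α), S.Finite ∧ P.Finite ∧ Tiles (C : Set (List α)) S P ∅) ∧
    ∃ D : Finset (List α), IsPrefixCode (D : Set (List α)) ∧
      ∃ F : List α → List α, Set.BijOn F C D ∧ ∀ w ∈ C, (F w).Perm w := by
  have hcomp := hMax α C hC hmax
  rcases isEmpty_or_nonempty α with he | hne
  · exfalso
    have hC0 : C = ∅ := by
      rw [Finset.eq_empty_iff_forall_notMem]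
      intro w hw
      have hw0 : w = [] := by
        rcases w with _ | ⟨x, w⟩
        · rfl
        · exact he.elim x
      rw [hw0] at hw
      exact hC.1 (by exact_mod_cast hw)
    obtain ⟨y, -⟩ := hI 1 1 (by
      rw [hC0]
      simp [gf])
    exact he.elim y
  have hCne : C.Nonempty := by
    obtain ⟨z⟩ := hne
    obtain ⟨u, v, h⟩ := hcomp [z]
    obtain ⟨x, p, -, hp, -⟩ := st_last h (by simp)
    exact ⟨p, by exact_mod_cast hp⟩
  obtain ⟨S0, P0, N0, hT0, hS0, hP0⟩ := hTil α C hC hcomp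
  obtain ⟨S, P, hSf, hPf, hT⟩ := factP hGf hdeg hC hCne hT0 hS0 hP0 hI
  exact ⟨⟨S, P, hSf, hPf, hT⟩, of_tiles hGf hTree C hC S P hSf hPf hT⟩

end Pool.Agent.H86.OG
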