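import Pool.Agent.H86.OG.Few

/-!
# The climb

From a minimal context `g` walk along a word `w` such that `g w` is not completed. If all letters
have value at least `τ` then `τ * A_g < m`, where `t(C) = 1 + (T - 1) m`.
-/

set_option autoImplicit false

namespace Pool.Agent.H86.OG

open Finset
open Pool.Agent.H35
open Pool.Agent.H35.FC (IsCode Facts Tiles gf)
open Pool.Agent.H35.FY (mem_rev rev_rev mem_star_rev code_rev)

section
variable {α : Type} [DecidableEq α] [Fintype α] {C : Finset (List α)} {S P N : Set (List α)} {L : ℕ}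

theorem aval_pos [Nonempty α] (hB : Base (C : Set (List α)) S P N L) {t : α → ℕ} (ht : ∀ x, 1 ≤ t x)
    (g : List α) : 1 ≤ aval hB t g := by
  obtain ⟨v, hv⟩ := aset_nonempty hB g
  exact vals_pos ht ⟨v, (Set.Finite.mem_toFinset _).2 hv⟩

/-- One step. -/
theorem step (hB : Base (C : Set (List α)) S P N L) (hP : P.Nonempty) {t : α → ℕ} {T m : ℕ}
    (hT : ∑ x, t x = T + 1) (hm : vals t C = 1 + T * m) {g : List α}
    (hmin : ∀ g', aval hB t g ≤ aval hB t g') (w : List α) (x : α) :
    (t x : ℤ) * ((aval hB t (g ++ w ++ [x]) : ℤ) - aval hB t g) ≤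
      ((aval hB t (g ++ w) : ℤ) - aval hB t g) + T * ((m : ℤ) - aval hB t g) ∧
    (¬ RC (C : Set (List α)) S (g ++ w) →
      (T : ℤ) * aval hB t g ≤ (aval hB t (g ++ w) : ℤ) - aval hB t g) := by
  classical
  have h1 := recA hB hP t (g ++ w)
  have h2 : ∑ z, t z * aval hB t (g ++ w ++ [z]) = t x * aval hB t (g ++ w ++ [x]) +
      ∑ z ∈ univ.erase x, t z * aval hB t (g ++ w ++ [z]) :=
    (Finset.add_sum_erase univ (fun z => t z * aval hB t (g ++ w ++ [z])) (mem_univ x)).symm
  have h3 : (∑ z ∈ univ.erase x, t z) * aval hB t g ≤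
      ∑ z ∈ univ.erase x, t z * aval hB t (g ++ w ++ [z]) := by
    rw [Finset.sum_mul]
    exact Finset.sum_le_sum fun z _ => Nat.mul_le_mul_left _ (hmin _)
  have h4 : t x + ∑ z ∈ univ.erase x, t z = T + 1 := by
    rw [Finset.add_sum_erase univ t (mem_univ x), hT]
  have h5 : t x * aval hB t g ≤ t x * aval hB t (g ++ w ++ [x]) :=
    Nat.mul_le_mul_left _ (hmin _)
  set Ag := aval hB t g
  set Aw := aval hB t (g ++ w)
  set Ax := aval hB t (g ++ w ++ [x])
  set E := ∑ z ∈ univ.erase x, t z * aval hB t (g ++ w ++ [z])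
  set R := ∑ z ∈ univ.erase x, t z
  rw [h2] at h1
  have h4' : (t x : ℤ) + R = T + 1 := by exact_mod_cast h4
  have h3' : (R : ℤ) * Ag ≤ E := by exact_mod_cast h3
  have h5' : (t x : ℤ) * Ag ≤ t x * Ax := by exact_mod_cast h5
  by_cases hr : RC (C : Set (List α)) S (g ++ w)
  · rw [if_pos hr, if_pos hr, hm] at h1
    have h1' : (t x : ℤ) * Ax + E + 1 = Aw + (1 + T * m) := by exact_mod_cast h1
    refine ⟨?_, fun h => absurd hr h⟩
    have h6 : (t x : ℤ) * Ag + R * Ag = (T + 1) * Ag := by rw [← add_mul, h4']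
    linarith [mul_sub (t x : ℤ) Ax Ag, mul_sub (T : ℤ) m Ag, add_mul (T : ℤ) 1 Ag]
  · rw [if_neg hr, if_neg hr] at h1
    have h1' : (t x : ℤ) * Ax + E = Aw := by exact_mod_cast h1
    have h6 : (t x : ℤ) * Ag + R * Ag = (T + 1) * Ag := by rw [← add_mul, h4']
    have h7 : (0 : ℤ) ≤ T * m := by positivity
    refine ⟨?_, fun _ => ?_⟩
    · linarith [mul_sub (t x : ℤ) Ax Ag, mul_sub (T : ℤ) m Ag, add_mul (T : ℤ) 1 Ag]
    · linarith [add_mul (T : ℤ) 1 Ag]

/-- A minimal context. -/
theorem exists_min (hB : Base (C : Set (List α)) S P N L) (t : α → ℕ) :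
    ∃ g, ∀ g', aval hB t g ≤ aval hB t g' := by
  classical
  have hex : ∃ n, ∃ g, aval hB t g = n := ⟨_, [], rfl⟩
  obtain ⟨g, hg⟩ := Nat.find_spec hex
  exact ⟨g, fun g' => by rw [hg]; exact Nat.find_min' hex ⟨g', rfl⟩⟩

theorem min_rc [Nonempty α] (hB : Base (C : Set (List α)) S P N L) (hP : P.Nonempty) {t : α → ℕ}
    (ht : ∀ x, 1 ≤ t x) {T m : ℕ} (hT1 : 1 ≤ T)
    (hT : ∑ x, t x = T + 1) (hm : vals t C = 1 + T * m) {g : List α}
    (hmin : ∀ g', aval hB t g ≤ aval hB t g') : RC (C : Set (List α)) S g := by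
  by_contra hr
  obtain ⟨y⟩ := ‹Nonempty α›
  have h := (step hB hP hT hm hmin [] y).2 (by rwa [List.append_nil])
  rw [List.append_nil, sub_self] at h
  have h1 : (1 : ℤ) ≤ aval hB t g := by exact_mod_cast aval_pos hB ht g
  have h2 : (1 : ℤ) ≤ T := by exact_mod_cast hT1
  nlinarith

/-- The climb. -/
theorem climb [Nonempty α] (hB : Base (C : Set (List α)) S P N L) (hP : P.Nonempty) {t : α → ℕ} {τ : ℕ}
    (hτ : 1 ≤ τ) (ht : ∀ x, τ ≤ t x) {T m : ℕ} (hT1 : 1 ≤ T)
    (hT : ∑ x, t x = T + 1) (hm : vals t C = 1 + T * m) {g : List α}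
    (hmin : ∀ g', aval hB t g ≤ aval hB t g') {w : List α}
    (hw : ¬ RC (C : Set (List α)) S (g ++ w)) : τ * aval hB t g < m := by
  have hτ' : (1 : ℤ) ≤ τ := by exact_mod_cast hτ
  have hT1' : (1 : ℤ) ≤ T := by exact_mod_cast hT1
  have hpos : (1 : ℤ) ≤ aval hB t g := by
    exact_mod_cast aval_pos hB (fun x => hτ.trans (ht x)) g
  have hq : ∀ w, (0 : ℤ) ≤ (aval hB t (g ++ w) : ℤ) - aval hB t g := by
    intro w
    have : (aval hB t g : ℤ) ≤ aval hB t (g ++ w) := by exact_mod_cast hmin (g ++ w)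
    linarith
  have hs : ∀ w x, (τ : ℤ) * ((aval hB t (g ++ w ++ [x]) : ℤ) - aval hB t g) ≤
      ((aval hB t (g ++ w) : ℤ) - aval hB t g) + T * ((m : ℤ) - aval hB t g) := by
    intro w x
    refine le_trans ?_ (step hB hP hT hm hmin w x).1
    refine mul_le_mul_of_nonneg_right (by exact_mod_cast ht x) ?_
    rw [List.append_assoc]
    exact hq _
  have hend : (T : ℤ) * aval hB t g ≤ (aval hB t (g ++ w) : ℤ) - aval hB t g := by
    obtain ⟨y⟩ := ‹Nonempty α›
    exact (step hB hP hT hm hmin w y).2 hw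
  obtain ⟨D, hD⟩ : ∃ D : ℤ, D = T * ((m : ℤ) - aval hB t g) := ⟨_, rfl⟩
  have hDpos : 0 < D := by
    by_contra hcon
    have hcon := not_lt.1 hcon
    have h0 : ∀ w, (aval hB t (g ++ w) : ℤ) - aval hB t g ≤ 0 := by
      intro w
      induction w using List.reverseRecOn with
      | nil => rw [List.append_nil, sub_self]
      | append_singleton w x ih =>
        have h1 := hs w x
        rw [← hD] at h1
        rw [← List.append_assoc]
        nlinarith
    have h1 := h0 w
    nlinarith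
  have hind : ∀ w, ((τ : ℤ) - 1) * ((aval hB t (g ++ w) : ℤ) - aval hB t g) < D := by
    intro w
    induction w using List.reverseRecOn with
    | nil => rw [List.append_nil, sub_self, mul_zero]; exact hDpos
    | append_singleton w x ih =>
      have h1 := hs w x
      rw [← hD] at h1
      rw [← List.append_assoc]
      have h2 : ((τ : ℤ) - 1) * ((τ : ℤ) * ((aval hB t (g ++ w ++ [x]) : ℤ) - aval hB t g)) ≤
          ((τ : ℤ) - 1) * (((aval hB t (g ++ w) : ℤ) - aval hB t g) + D) :=
        mul_le_mul_of_nonneg_left h1 (by linarith)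
      have h3 : (τ : ℤ) * (((τ : ℤ) - 1) * ((aval hB t (g ++ w ++ [x]) : ℤ) - aval hB t g)) <
          τ * D := by
        nlinarith
      exact lt_of_mul_lt_mul_left h3 (by linarith)
  have h1 := hind w
  have h2 : ((τ : ℤ) - 1) * (T * aval hB t g) ≤
      ((τ : ℤ) - 1) * ((aval hB t (g ++ w) : ℤ) - aval hB t g) :=
    mul_le_mul_of_nonneg_left hend (by linarith)
  have h3 : (T : ℤ) * (τ * aval hB t g) < T * m := by
    rw [hD] at h1
    nlinarith
  have h4 := lt_of_mul_lt_mul_left h3 (by linarith)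
  exact_mod_cast h4

/-- The mirror image. -/
theorem climbB [Nonempty α] (hB : Base (C : Set (List α)) S P N L) (hS : S.Nonempty) {t : α → ℕ}
    {τ : ℕ} (hτ : 1 ≤ τ) (ht : ∀ x, τ ≤ t x) {T m : ℕ} (hT1 : 1 ≤ T)
    (hT : ∑ x, t x = T + 1) (hm : vals t C = 1 + T * m) :
    ∃ f, LC (C : Set (List α)) P f ∧
      ((∃ w, ¬ LC (C : Set (List α)) P (w ++ f)) → τ * bval hB t f < m) := by
  classical
  have hvals : ∀ K : Finset (List α), vals t (K.image List.reverse) = vals t K := by
    intro K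
    unfold vals
    rw [Finset.sum_image (fun _ _ _ _ h => List.reverse_injective h)]
    exact Finset.sum_congr rfl fun w _ => val_reverse t w
  have hcoe : (List.reverse '' (C : Set (List α))) =
      ((C.image List.reverse : Finset (List α)) : Set (List α)) := by
    rw [Finset.coe_image]
  have hB' : Base ((C.image List.reverse : Finset (List α)) : Set (List α))
      (List.reverse '' P) (List.reverse '' S) (List.reverse '' N) L := by
    rw [← hcoe]
    exact hB.rev
  obtain ⟨g, hg⟩ := exists_min hB' t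
  have hm' : vals t (C.image List.reverse) = 1 + T * m := by rw [hvals]; exact hm
  have h1 := min_rc hB' (hS.image _) (fun x => hτ.trans (ht x)) hT1 hT hm' hg
  have hval : aval hB' t g = bval hB t g.reverse := by
    unfold aval bval
    rw [← hvals (bset_finite hB g.reverse).toFinset]
    congr 1
    ext w
    rw [Set.Finite.mem_toFinset, Finset.mem_image, ← hcoe]
    constructor
    · intro h
      refine ⟨w.reverse, ?_, List.reverse_reverse w⟩
      rw [Set.Finite.mem_toFinset, bset_iff, List.reverse_reverse, List.reverse_reverse]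
      exact h
    · rintro ⟨v, hv, rfl⟩
      rw [Set.Finite.mem_toFinset, bset_iff, List.reverse_reverse] at hv
      exact hv
  refine ⟨g.reverse, ?_, ?_⟩
  · rw [lc_iff, List.reverse_reverse, hcoe]
    exact h1
  · rintro ⟨w, hw⟩
    rw [← hval]
    refine climb hB' (hS.image _) hτ ht hT1 hT hm' hg (w := w.reverse) ?_
    rw [lc_iff, List.reverse_append, List.reverse_reverse, hcoe] at hw
    exact hw

end

end Pool.Agent.H86.OG
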