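import Pool.Agent.H86.OG.Base

/-!
# Contexts which end with `y` and words with a maximal number of letters `y`
-/

set_option autoImplicit false

namespace Pool.Agent.H86.OG

open Pool.Agent.H35
open Pool.Agent.H35.FC (IsCode Facts Tiles star_nil star_append star_of_mem split cut)

/-- Some codeword begins with `y` and has `d` letters `y`. -/
theorem dset_nonempty {α : Type} [DecidableEq α] {C S : Set (List α)} {y : α} {d : ℕ}
    (hdle : ∀ w ∈ C, w.count y ≤ d) (hdS : ∀ w ∈ S, w.count y ≤ d) {v : List α}
    (hv : v ∈ Aset C S ([y] ++ [y])) (hc : v.count y = d - 1) (hd2 : 2 ≤ d) : y :: v ∈ C := by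
  rw [mem_aset_append] at hv
  rcases hv with h | ⟨z1, z2, e, hz, -, h⟩
  · exfalso
    have h1 := A_cnt (g := []) hdle hdS (by simpa using h)
    rw [List.count_cons_self] at h1
    omega
  · rcases z1 with _ | ⟨b, z1⟩
    · rw [List.nil_append] at e
      rw [← e] at h
      exact h
    · exfalso
      have := congrArg List.length e
      have hl := List.length_pos_iff.2 hz
      simp only [List.length_cons, List.length_append, List.length_nil] at this
      omega

/-- Two contexts whose completions agree below the length of `x0`, and not for `x0`. -/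
theorem left_aux {α : Type} [DecidableEq α] {C S P N : Set (List α)} {L : ℕ} {y : α} {d : ℕ}
    (hB : Base C S P N L) (hd2 : 2 ≤ d) (hdle : ∀ w ∈ C, w.count y ≤ d)
    (hdS : ∀ w ∈ S, w.count y ≤ d) (hPne : P.Nonempty)
    {g g' x0 : List α} (h1 : x0 ∈ Aset C S (g ++ [y])) (h2 : x0 ∉ Aset C S (g' ++ [y]))
    (h3 : ∀ z : List α, z.length < x0.length →
      (z ∈ Aset C S (g ++ [y]) ↔ z ∈ Aset C S (g' ++ [y]))) :
    ∀ v : List α, v.count y = d - 1 →
      (v ∈ Aset C S (g ++ [y] ++ (x0 ++ [y])) ↔
        (v ∈ Aset C S (g' ++ [y] ++ (x0 ++ [y])) ∨ y :: v ∈ C)) ∧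
      ¬ (v ∈ Aset C S (g' ++ [y] ++ (x0 ++ [y])) ∧ y :: v ∈ C) := by
  obtain ⟨p0, hp0⟩ := hPne
  have hl0 : LC C P p0 := ⟨[], star_nil, p0, hp0, rfl⟩
  have hrc : ∀ z : List α, z.length < x0.length →
      (RC C S (g ++ [y] ++ z) ↔ RC C S (g' ++ [y] ++ z)) := by
    intro z hz
    constructor
    · intro h
      obtain ⟨s, hs, c, hc, rfl⟩ := facA hB.code h
      rw [← List.append_assoc]
      refine rc_star (rc_of_aset ((h3 s ?_).1 hs)) hc
      rw [List.length_append] at hz
      omega
    · intro h
      obtain ⟨s, hs, c, hc, rfl⟩ := facA hB.code h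
      rw [← List.append_assoc]
      refine rc_star (rc_of_aset ((h3 s ?_).2 hs)) hc
      rw [List.length_append] at hz
      omega
  have hr0 : RC C S (g ++ [y] ++ x0) := rc_of_aset h1
  have hr0' : ¬ RC C S (g' ++ [y] ++ x0) := by
    intro h
    obtain ⟨s, hs, c, hc, e⟩ := facA hB.code h
    rcases eq_or_ne c [] with rfl | hcn
    · rw [List.append_nil] at e
      rw [e] at hs
      exact h2 hs
    · have hlen : s.length < x0.length := by
        rw [← e, List.length_append]
        have := List.length_pos_iff.2 hcn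
        omega
      have hs' := (h3 s hlen).2 hs
      exact acut hB (g := g ++ [y]) (v1 := s) (v2 := c) (t := p0)
        (by rw [e]; exact h1) hcn (rc_of_aset hs') (lc_star hc hl0) hl0
  have hA : ∀ (k : List α) (v : List α), v.count y = d - 1 →
      (v ∈ Aset C S (k ++ [y] ++ (x0 ++ [y])) ↔
        ((RC C S (k ++ [y] ++ x0) ∧ y :: v ∈ C) ∨
          ∃ z1 z2, x0 ++ [y] = z1 ++ z2 ∧ z1.length < x0.length ∧
            RC C S (k ++ [y] ++ z1) ∧ z2 ++ v ∈ C)) := by
    intro k v hv
    rw [mem_aset_append]
    constructor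
    · rintro (h | ⟨z1, z2, e, hz, hr, hc⟩)
      · exfalso
        have h4 := A_cnt hdle hdS h
        rw [List.count_append, List.count_append, List.count_singleton_self] at h4
        omega
      · rcases lt_or_ge z1.length x0.length with h | h
        · exact Or.inr ⟨z1, z2, e, h, hr, hc⟩
        · left
          have l1 := congrArg List.length e
          simp only [List.length_append, List.length_cons, List.length_nil] at l1
          have hz' := List.length_pos_iff.2 hz
          obtain ⟨e1, e2⟩ := List.append_inj e (by omega)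
          subst e1 e2
          exact ⟨hr, hc⟩
    · rintro (⟨hr, hc⟩ | ⟨z1, z2, e, hz, hr, hc⟩)
      · exact Or.inr ⟨x0, [y], rfl, by simp, hr, hc⟩
      · refine Or.inr ⟨z1, z2, e, ?_, hr, hc⟩
        rintro rfl
        have l1 := congrArg List.length e
        simp only [List.length_append, List.length_cons, List.length_nil] at l1
        omega
  intro v hv
  rw [hA g v hv, hA g' v hv]
  have hE : (∃ z1 z2, x0 ++ [y] = z1 ++ z2 ∧ z1.length < x0.length ∧
      RC C S (g ++ [y] ++ z1) ∧ z2 ++ v ∈ C) ↔
      (∃ z1 z2, x0 ++ [y] = z1 ++ z2 ∧ z1.length < x0.length ∧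
      RC C S (g' ++ [y] ++ z1) ∧ z2 ++ v ∈ C) := by
    constructor
    · rintro ⟨z1, z2, e, hz, hr, hc⟩
      exact ⟨z1, z2, e, hz, (hrc z1 hz).1 hr, hc⟩
    · rintro ⟨z1, z2, e, hz, hr, hc⟩
      exact ⟨z1, z2, e, hz, (hrc z1 hz).2 hr, hc⟩
  refine ⟨?_, ?_⟩
  · rw [hE]
    constructor
    · rintro (⟨-, h⟩ | h)
      · exact Or.inr h
      · exact Or.inl (Or.inr h)
    · rintro ((⟨h, -⟩ | h) | h)
      · exact absurd h hr0'
      · exact Or.inr h
      · exact Or.inl ⟨hr0, h⟩
  · rintro ⟨⟨h, -⟩ | h, hy⟩
    · exact hr0' h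
    · obtain ⟨z1, z2, e, hz, hr, hc⟩ := hE.2 h
      have key := cutT hB (a := g ++ [y] ++ x0) (b := (y :: v) ++ p0) (x := g ++ [y] ++ z1)
        (c := z2 ++ v) (z := p0) hr0 (lc_star (star_of_mem hy) hl0) hr hc hl0 (by
          have h9 : x0 ++ (y :: v) = z1 ++ (z2 ++ v) := by
            rw [← List.append_assoc, ← e]
            simp
          have h10 : g ++ [y] ++ x0 ++ (y :: v ++ p0) =
              g ++ [y] ++ ((x0 ++ (y :: v)) ++ p0) := by simp only [List.append_assoc]
          rw [h10, h9]
          simp only [List.append_assoc])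
      have l1 := congrArg List.length e
      simp only [List.length_append, List.length_cons, List.length_nil] at l1 key
      have hv1 : 0 < v.length := by
        rw [List.length_pos_iff]
        rintro rfl
        simp only [List.count_nil] at hv
        omega
      omega

/-- The completions of all contexts which end with `y` are the same, if the numbers of their
completions with `d - 1` letters `y` are the same. -/
theorem leftP {α : Type} [Finite α] [DecidableEq α] {C S P N : Set (List α)} {L : ℕ} {y : α} {d : ℕ}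
    (hB : Base C S P N L) (hd2 : 2 ≤ d) (hdle : ∀ w ∈ C, w.count y ≤ d)
    (hdS : ∀ w ∈ S, w.count y ≤ d) (hPne : P.Nonempty)
    (hD : ∃ v : List α, y :: v ∈ C ∧ v.count y = d - 1)
    (hcard : ∀ g g' : List α,
      ((aset_finite hB (g ++ [y])).toFinset.filter (fun w => w.count y = d - 1)).card =
      ((aset_finite hB (g' ++ [y])).toFinset.filter (fun w => w.count y = d - 1)).card) :
    ∀ g g' : List α, Aset C S (g ++ [y]) = Aset C S (g' ++ [y]) := by
  classical
  have key : ∀ G G' : List α, ¬ ∀ v : List α, v.count y = d - 1 →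
      (v ∈ Aset C S (G ++ [y]) ↔ (v ∈ Aset C S (G' ++ [y]) ∨ y :: v ∈ C)) ∧
      ¬ (v ∈ Aset C S (G' ++ [y]) ∧ y :: v ∈ C) := by
    intro G G' h
    obtain ⟨v0, hv0, hc0⟩ := hD
    have hlt : ((aset_finite hB (G' ++ [y])).toFinset.filter (fun w => w.count y = d - 1)).card <
        ((aset_finite hB (G ++ [y])).toFinset.filter (fun w => w.count y = d - 1)).card := by
      apply Finset.card_lt_card
      rw [Finset.ssubset_iff_of_subset]
      · refine ⟨v0, ?_, ?_⟩
        · rw [Finset.mem_filter, Set.Finite.mem_toFinset]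
          exact ⟨(h v0 hc0).1.2 (Or.inr hv0), hc0⟩
        · rw [Finset.mem_filter, Set.Finite.mem_toFinset]
          rintro ⟨h1, -⟩
          exact (h v0 hc0).2 ⟨h1, hv0⟩
      · intro w hw
        rw [Finset.mem_filter, Set.Finite.mem_toFinset] at hw ⊢
        exact ⟨(h w hw.2).1.2 (Or.inl hw.1), hw.2⟩
    have := hcard G G'
    omega
  by_contra hall
  push Not at hall
  obtain ⟨g, g', hne⟩ := hall
  have hex : ∃ n, ∃ x : List α, x.length = n ∧
      ¬ (x ∈ Aset C S (g ++ [y]) ↔ x ∈ Aset C S (g' ++ [y])) := by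
    by_contra hcon
    push Not at hcon
    apply hne
    ext x
    exact hcon x.length x rfl
  obtain ⟨x0, hx0, hx1⟩ := Nat.find_spec hex
  have hmin : ∀ z : List α, z.length < x0.length →
      (z ∈ Aset C S (g ++ [y]) ↔ z ∈ Aset C S (g' ++ [y])) := by
    intro z hz
    rw [hx0] at hz
    by_contra hcon
    exact Nat.find_min hex hz ⟨z, rfl, hcon⟩
  by_cases h1 : x0 ∈ Aset C S (g ++ [y])
  · have h2 : x0 ∉ Aset C S (g' ++ [y]) := fun h => hx1 ⟨fun _ => h, fun _ => h1⟩
    refine key (g ++ [y] ++ x0) (g' ++ [y] ++ x0) fun v hv => ?_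
    have := left_aux hB hd2 hdle hdS hPne h1 h2 hmin v hv
    simpa only [List.append_assoc] using this
  · have h2 : x0 ∈ Aset C S (g' ++ [y]) := by
      by_contra h
      exact hx1 ⟨fun h' => absurd h' h1, fun h' => absurd h' h⟩
    refine key (g' ++ [y] ++ x0) (g ++ [y] ++ x0) fun v hv => ?_
    have := left_aux hB hd2 hdle hdS hPne h2 h1 (fun z hz => (hmin z hz).symm) v hv
    simpa only [List.append_assoc] using this

/-- The end, if all contexts which end with `y` have the same completions. -/
theorem endP {α : Type} [Finite α] [DecidableEq α] {C S P N : Set (List α)} {L : ℕ} {y : α}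
    (hB : Base C S P N L) (hne : (Nset C S P ([] ++ [y]) []).Nonempty)
    (hA : ∀ g g' : List α, Aset C S (g ++ [y]) = Aset C S (g' ++ [y])) :
    ∃ S' P' : Set (List α), S'.Finite ∧ P'.Finite ∧ Tiles C S' P' ∅ := by
  obtain ⟨u, hu, hmax⟩ := (nset_finite hB ([] ++ [y]) []).exists_maximalFor
    (fun w => w.count y) _ hne
  have hN : ∀ w, w ++ y :: u ∉ Nset C S P ([] ++ [y]) [] := by
    intro w hw
    have h1 : u.count y ≤ (w ++ y :: u).count y := by
      rw [List.count_append, List.count_cons_self]
      omega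
    have h2 : (w ++ y :: u).count y ≤ u.count y := hmax hw h1
    rw [List.count_append, List.count_cons_self] at h2
    omega
  let P' : Set (List α) := {v | v ++ y :: u ∈ Bset C P []}
  have hex : ∀ w, ∃ t, t ∈ Facts (Aset C S ([] ++ [y])) (FC.Star C) P' w := by
    intro w
    obtain ⟨⟨x, c, β⟩, ⟨h1, h2, h3, h4⟩, -⟩ :=
      (partP hB ([] ++ [y]) [] (w ++ y :: u)).2 (hN w)
    simp only at h1 h2 h3 h4
    have hno : ∀ z, u ≠ z ++ β := by
      intro z e1
      have e2 : x ++ c = w ++ y :: z := by
        rw [e1] at h4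
        have h5 : (x ++ c) ++ β = (w ++ y :: z) ++ β := by
          rw [List.append_assoc, h4]
          simp
        exact List.append_cancel_right h5
      have h5 : RC C S (([] ++ [y]) ++ w ++ [y] ++ z) := by
        have h6 := rc_star (rc_of_aset h1) h2
        rw [List.append_assoc, e2] at h6
        simpa using h6
      obtain ⟨s, hs, c', hc', e3⟩ := facA hB.code h5
      rw [hA (([] ++ [y]) ++ w) []] at hs
      refine ncut hB.code (g := [] ++ [y]) (f := []) (u1 := z) (u2 := β) (by rw [← e1]; exact hu)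
        ?_ (lc_of_bset h3)
      rw [← e3, ← List.append_assoc]
      exact rc_star (rc_of_aset hs) hc'
    rw [← List.append_assoc] at h4
    rcases List.append_eq_append_iff.1 h4 with ⟨z, e1, e2⟩ | ⟨z, e1, e2⟩
    · -- `w = (x ++ c) ++ z`, `β = z ++ y :: u`
      refine ⟨⟨x, c, z⟩, h1, h2, ?_, ?_⟩
      · change z ++ y :: u ∈ Bset C P []
        rw [← e2]
        exact h3
      · simp only
        rw [e1, List.append_assoc]
    · -- `x ++ c = w ++ z`, `y :: u = z ++ β`
      rcases z with _ | ⟨b, z⟩
      · refine ⟨⟨x, c, []⟩, h1, h2, ?_, ?_⟩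
        · change [] ++ y :: u ∈ Bset C P []
          rw [List.nil_append]
          have e3 : y :: u = β := by simpa using e2
          rw [e3]
          exact h3
        · simp only
          simpa using e1
      · exfalso
        rw [List.cons_append, List.cons.injEq] at e2
        exact hno z e2.2
  have hlift : ∀ w v c β, (v, c, β) ∈ Facts (Aset C S ([] ++ [y])) (FC.Star C) P' w →
      (v, c, β ++ y :: u) ∈ Facts (Aset C S ([] ++ [y])) (FC.Star C) (Bset C P [])
        (w ++ y :: u) := by
    rintro w v c β ⟨h1, h2, h3, h4⟩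
    refine ⟨h1, h2, h3, ?_⟩
    simp only at h4 ⊢
    rw [← h4]; simp
  have hun : ∀ w t t', t ∈ Facts (Aset C S ([] ++ [y])) (FC.Star C) P' w →
      t' ∈ Facts (Aset C S ([] ++ [y])) (FC.Star C) P' w → t = t' := by
    rintro w ⟨v, c, β⟩ ⟨v', c', β'⟩ h h'
    have hun := (partP hB ([] ++ [y]) [] (w ++ y :: u)).2 (hN w)
    have := hun.unique (hlift w v c β h) (hlift w v' c' β' h')
    simp only [Prod.mk.injEq, List.append_cancel_right_eq] at this ⊢
    exact this
  have hfinP : P'.Finite := by
    refine Set.Finite.preimage ?_ (bset_finite hB [])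
    intro x _ z _ hxz
    simpa using hxz
  refine ⟨Aset C S ([] ++ [y]), P', aset_finite hB _, hfinP,
    fun w => ⟨fun h => h.elim, fun _ => ?_⟩⟩
  obtain ⟨t, ht⟩ := hex w
  exact ⟨t, ht, fun t' ht' => hun w t' t ht' ht⟩

end Pool.Agent.H86.OG
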