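import Pool.Agent.H86.OG.Base

/-!
# Values at positive integers

`val t w` is the product of the numbers `t x` over the letters `x` of `w`.
-/

set_option autoImplicit false

namespace Pool.Agent.H86.OG

open Finset
open Pool.Agent.H35
open Pool.Agent.H35.FC (IsCode Facts Tiles gf)
open Pool.Agent.H35.FY (mem_rev rev_rev mem_star_rev code_rev)

section
variable {α : Type}

/-- The value of a word. -/
def val (t : α → ℕ) (w : List α) : ℕ := (w.map t).prod

/-- The value of a finite set of words. -/
def vals (t : α → ℕ) (L : Finset (List α)) : ℕ := ∑ w ∈ L, val t w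

theorem val_cons (t : α → ℕ) (x : α) (w : List α) : val t (x :: w) = t x * val t w := by
  simp [val]

theorem val_reverse (t : α → ℕ) (w : List α) : val t w.reverse = val t w := by
  unfold val
  rw [List.map_reverse, List.prod_reverse]

theorem val_pos {t : α → ℕ} (ht : ∀ x, 1 ≤ t x) (w : List α) : 1 ≤ val t w := by
  induction w with
  | nil => simp [val]
  | cons x w ih =>
    rw [val_cons]
    exact Nat.mul_pos (ht x) ih

theorem vals_pos {t : α → ℕ} (ht : ∀ x, 1 ≤ t x) {L : Finset (List α)} (hL : L.Nonempty) :
    1 ≤ vals t L := by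
  obtain ⟨w, hw⟩ := hL
  exact (val_pos ht w).trans (Finset.single_le_sum (f := val t) (fun _ _ => Nat.zero_le _) hw)

theorem eval_word (t : α → ℕ) (w : List α) : MvPolynomial.eval (fun x => (t x : ℤ))
    (w.map (MvPolynomial.X : α → MvPolynomial α ℤ)).prod = (val t w : ℤ) := by
  induction w with
  | nil => simp [val]
  | cons x w ih =>
    rw [List.map_cons, List.prod_cons, map_mul, MvPolynomial.eval_X, ih, val_cons]
    push_cast
    rfl

theorem eval_gf [DecidableEq α] (t : α → ℕ) (L : Finset (List α)) :
    MvPolynomial.eval (fun x => (t x : ℤ)) (gf L) = (vals t L : ℤ) := by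
  unfold gf vals
  rw [map_sum]
  push_cast
  exact Finset.sum_congr rfl fun w _ => eval_word t w

variable [DecidableEq α]

/-- The words `v` with `x v` in `L`. -/
def der (x : α) (L : Finset (List α)) : Finset (List α) :=
  (L.filter (fun w => w.head? = some x)).image List.tail

theorem mem_der {x : α} {L : Finset (List α)} {v : List α} : v ∈ der x L ↔ x :: v ∈ L := by
  unfold der
  rw [Finset.mem_image]
  constructor
  · rintro ⟨w, hw, rfl⟩
    rw [Finset.mem_filter] at hw
    rcases w with _ | ⟨z, w⟩
    · simp at hw
    · have h1 : z = x := by simpa using hw.2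
      rw [← h1]
      exact hw.1
  · intro h
    exact ⟨x :: v, Finset.mem_filter.2 ⟨h, rfl⟩, rfl⟩

theorem vals_der (t : α → ℕ) (x : α) (L : Finset (List α)) :
    t x * vals t (der x L) = ∑ w ∈ L, if w.head? = some x then val t w else 0 := by
  unfold vals der
  rw [Finset.sum_image, Finset.mul_sum, Finset.sum_filter]
  · refine Finset.sum_congr rfl fun w _ => ?_
    rcases w with _ | ⟨z, w⟩
    · simp
    · by_cases h : z = x
      · subst h
        simp [val_cons]
      · simp [h]
  · intro w hw w' hw' h
    rw [Finset.mem_coe, Finset.mem_filter] at hw hw'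
    rcases w with _ | ⟨z, w⟩
    · simp at hw
    rcases w' with _ | ⟨z', w'⟩
    · simp at hw'
    have h1 : z = x := by simpa using hw.2
    have h2 : z' = x := by simpa using hw'.2
    rw [List.tail_cons, List.tail_cons] at h
    rw [h1, h2, h]

variable [Fintype α]

theorem sum_der (t : α → ℕ) (L : Finset (List α)) :
    (∑ x, t x * vals t (der x L)) + (if [] ∈ L then 1 else 0) = vals t L := by
  simp only [vals_der]
  rw [Finset.sum_comm]
  have h1 : ∀ w ∈ L, (∑ x, if w.head? = some x then val t w else 0) =
      if w = [] then 0 else val t w := by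
    intro w _
    rcases w with _ | ⟨z, w⟩
    · simp
    · simp
  rw [Finset.sum_congr rfl h1]
  have h2 : (if [] ∈ L then 1 else 0) = ∑ w ∈ L, if w = [] then val t w else 0 := by
    rw [Finset.sum_ite_eq']
    simp [val]
  rw [h2, ← Finset.sum_add_distrib, vals]
  refine Finset.sum_congr rfl fun w _ => ?_
  split_ifs <;> simp

end

section
variable {α : Type} [DecidableEq α] [Fintype α] {C : Finset (List α)} {S P N : Set (List α)} {L : ℕ}

/-- The value of the completions. -/
noncomputable def aval (hB : Base (C : Set (List α)) S P N L) (t : α → ℕ) (g : List α) : ℕ :=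
  vals t (aset_finite hB g).toFinset

noncomputable def bval (hB : Base (C : Set (List α)) S P N L) (t : α → ℕ) (f : List α) : ℕ :=
  vals t (bset_finite hB f).toFinset

open Classical in
/-- The recursion. -/
theorem recA (hB : Base (C : Set (List α)) S P N L) (hP : P.Nonempty) (t : α → ℕ) (g : List α) :
    (∑ x, t x * aval hB t (g ++ [x])) + (if RC (C : Set (List α)) S g then 1 else 0) =
      aval hB t g + if RC (C : Set (List α)) S g then vals t C else 0 := by
  obtain ⟨p0, hp0⟩ := hP
  have hl0 : LC (C : Set (List α)) P p0 := ⟨[], FC.star_nil, p0, hp0, rfl⟩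
  have hmem : ∀ (x : α) (v : List α), v ∈ Aset (C : Set (List α)) S (g ++ [x]) ↔
      x :: v ∈ Aset (C : Set (List α)) S g ∨ (RC (C : Set (List α)) S g ∧ x :: v ∈ C) := by
    intro x v
    rw [mem_aset_append]
    refine or_congr Iff.rfl ?_
    constructor
    · rintro ⟨z1, z2, e, hz, hr, hc⟩
      rcases z1 with _ | ⟨b, z1⟩
      · rw [List.nil_append] at e
        rw [← e] at hc
        rw [List.append_nil] at hr
        exact ⟨hr, by exact_mod_cast hc⟩
      · exfalso
        have := congrArg List.length e
        have hl := List.length_pos_iff.2 hz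
        simp only [List.length_cons, List.length_append, List.length_nil] at this
        omega
    · rintro ⟨hr, hc⟩
      exact ⟨[], [x], rfl, by simp, by rwa [List.append_nil], by exact_mod_cast hc⟩
  by_cases hr : RC (C : Set (List α)) S g
  · rw [if_pos hr, if_pos hr]
    have h1 : ∀ x, aval hB t (g ++ [x]) =
        vals t (der x (aset_finite hB g).toFinset) + vals t (der x C) := by
      intro x
      have h2 : (aset_finite hB (g ++ [x])).toFinset =
          der x (aset_finite hB g).toFinset ∪ der x C := by
        ext v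
        rw [Set.Finite.mem_toFinset, hmem, Finset.mem_union, mem_der, mem_der,
          Set.Finite.mem_toFinset]
        exact or_congr Iff.rfl (and_iff_right hr)
      unfold aval vals
      rw [h2, Finset.sum_union]
      rw [Finset.disjoint_left]
      intro v h3 h4
      rw [mem_der, Set.Finite.mem_toFinset] at h3
      rw [mem_der] at h4
      refine acut hB (v1 := []) (v2 := x :: v) (t := p0) h3 (by simp)
        (by rwa [List.append_nil]) (lc_star (FC.star_of_mem (by exact_mod_cast h4)) hl0) hl0
    have h2 : ∑ x, t x * aval hB t (g ++ [x]) =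
        (∑ x, t x * vals t (der x (aset_finite hB g).toFinset)) + ∑ x, t x * vals t (der x C) := by
      rw [← Finset.sum_add_distrib]
      refine Finset.sum_congr rfl fun x _ => ?_
      rw [h1 x, mul_add]
    have h3 := sum_der t (aset_finite hB g).toFinset
    have h4 := sum_der t C
    rw [if_pos ((Set.Finite.mem_toFinset _).2 ((nil_mem_aset hB.code).2 hr))] at h3
    rw [if_neg (fun h => hB.code.1 (by exact_mod_cast h))] at h4
    rw [h2]
    unfold aval
    omega
  · rw [if_neg hr, if_neg hr]
    have h1 : ∀ x, aval hB t (g ++ [x]) = vals t (der x (aset_finite hB g).toFinset) := by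
      intro x
      have h2 : (aset_finite hB (g ++ [x])).toFinset = der x (aset_finite hB g).toFinset := by
        ext v
        rw [Set.Finite.mem_toFinset, hmem, mem_der, Set.Finite.mem_toFinset]
        constructor
        · rintro (h | h)
          · exact h
          · exact absurd h.1 hr
        · exact fun h => Or.inl h
      unfold aval
      rw [h2]
    have h3 := sum_der t (aset_finite hB g).toFinset
    rw [if_neg (fun h => hr ((nil_mem_aset hB.code).1 ((Set.Finite.mem_toFinset _).1 h)))] at h3
    simp only [h1]
    unfold aval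
    omega

/-- The minimum. -/
theorem minA [Nonempty α] (hB : Base (C : Set (List α)) S P N L) (hP : P.Nonempty) {t : α → ℕ}
    (ht : ∀ x, 1 ≤ t x) (hT : 2 ≤ ∑ x, t x) {m : ℕ}
    (hm : vals t C = 1 + ((∑ x, t x) - 1) * m) :
    ∃ g, RC (C : Set (List α)) S g ∧ aval hB t g ≤ m ∧
      (aval hB t g = m → ∀ w, RC (C : Set (List α)) S (g ++ w)) := by
  classical
  have hpos : ∀ g, 1 ≤ aval hB t g := by
    intro g
    obtain ⟨v, hv⟩ := aset_nonempty hB g
    exact vals_pos ht ⟨v, (Set.Finite.mem_toFinset _).2 hv⟩
  -- a minimal context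
  have hex : ∃ n, ∃ g, aval hB t g = n := ⟨_, [], rfl⟩
  obtain ⟨g, hg⟩ := Nat.find_spec hex
  have hmin : ∀ g', aval hB t g ≤ aval hB t g' := by
    intro g'
    rw [hg]
    exact Nat.find_min' hex ⟨g', rfl⟩
  have hTm : ∀ g', (∀ g'', aval hB t g' ≤ aval hB t g'') →
      RC (C : Set (List α)) S g' ∧ aval hB t g' ≤ m := by
    intro g' hg'
    have h1 := recA hB hP t g'
    have h2 : (∑ x, t x) * aval hB t g' ≤ ∑ x, t x * aval hB t (g' ++ [x]) := by
      rw [Finset.sum_mul]
      exact Finset.sum_le_sum fun x _ => Nat.mul_le_mul_left _ (hg' _)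
    have h3 := hpos g'
    obtain ⟨T, hTe⟩ : ∃ T, ∑ x, t x = T + 1 := ⟨(∑ x, t x) - 1, by omega⟩
    rw [hTe] at hm h2 hT
    rw [Nat.add_sub_cancel] at hm
    by_cases hr : RC (C : Set (List α)) S g'
    · rw [if_pos hr, if_pos hr, hm] at h1
      refine ⟨hr, ?_⟩
      have h4 : T * aval hB t g' ≤ T * m := by
        have : (T + 1) * aval hB t g' = T * aval hB t g' + aval hB t g' := by ring
        omega
      exact Nat.le_of_mul_le_mul_left h4 (by omega)
    · exfalso
      rw [if_neg hr, if_neg hr] at h1
      have h5 : (T + 1) * aval hB t g' = T * aval hB t g' + aval hB t g' := by ring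
      have h6 : 1 ≤ T * aval hB t g' := Nat.mul_pos (by omega) h3
      omega
  obtain ⟨h1, h2⟩ := hTm g hmin
  refine ⟨g, h1, h2, fun he w => ?_⟩
  have key : ∀ w, aval hB t (g ++ w) = m := by
    intro w
    induction w using List.reverseRecOn with
    | nil => rwa [List.append_nil]
    | append_singleton w x ih =>
      have h3 := recA hB hP t (g ++ w)
      have hw : ∀ g'', aval hB t (g ++ w) ≤ aval hB t g'' := by
        intro g''
        rw [ih, ← he]
        exact hmin g''
      obtain ⟨h4, -⟩ := hTm (g ++ w) hw
      rw [if_pos h4, if_pos h4, hm, ih] at h3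
      obtain ⟨T, hTe⟩ : ∃ T, ∑ x, t x = T + 1 := ⟨(∑ x, t x) - 1, by omega⟩
      rw [hTe, Nat.add_sub_cancel] at h3
      have h5 : ∑ x, t x * aval hB t (g ++ w ++ [x]) = ∑ x, t x * m := by
        rw [← Finset.sum_mul, hTe]
        have : (T + 1) * m = T * m + m := by ring
        omega
      have h6 : ∀ z ∈ (Finset.univ : Finset α), t z * m ≤ t z * aval hB t (g ++ w ++ [z]) :=
        fun z _ => Nat.mul_le_mul_left _ (by rw [← he]; exact hmin _)
      have h7 := (Finset.sum_eq_sum_iff_of_le h6).1 h5.symm x (Finset.mem_univ x)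
      have h8 := Nat.eq_of_mul_eq_mul_left (ht x) h7
      rw [← List.append_assoc]
      exact h8.symm
  exact (hTm (g ++ w) (fun g'' => by rw [key w, ← he]; exact hmin g'')).1

/-- The mirror image. -/
theorem minB [Nonempty α] (hB : Base (C : Set (List α)) S P N L) (hS : S.Nonempty) {t : α → ℕ}
    (ht : ∀ x, 1 ≤ t x) (hT : 2 ≤ ∑ x, t x) {m : ℕ}
    (hm : vals t C = 1 + ((∑ x, t x) - 1) * m) :
    ∃ f, LC (C : Set (List α)) P f ∧ bval hB t f ≤ m ∧
      (bval hB t f = m → ∀ w, LC (C : Set (List α)) P (w ++ f)) := by
  classical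
  have hvals : ∀ K : Finset (List α), vals t (K.image List.reverse) = vals t K := by
    intro K
    unfold vals
    rw [Finset.sum_image (fun _ _ _ _ h => List.reverse_injective h)]
    exact Finset.sum_congr rfl fun w _ => val_reverse t w
  have hcoe : (List.reverse '' (C : Set (List α))) =
      ((C.image List.reverse : Finset (List α)) : Set (List α)) := by
    rw [Finset.coe_image]
  have hB' : Base ((C.image List.reverse : Finset (List α)) : Set (List α))
      (List.reverse '' P) (List.reverse '' S) (List.reverse '' N) L := by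
    rw [← hcoe]
    exact hB.rev
  obtain ⟨g, h1, h2, h3⟩ := minA hB' (hS.image _) ht hT (m := m) (by rw [hvals]; exact hm)
  have hval : aval hB' t g = bval hB t g.reverse := by
    unfold aval bval
    rw [← hvals (bset_finite hB g.reverse).toFinset]
    congr 1
    ext w
    rw [Set.Finite.mem_toFinset, Finset.mem_image, ← hcoe]
    constructor
    · intro h
      refine ⟨w.reverse, ?_, List.reverse_reverse w⟩
      rw [Set.Finite.mem_toFinset, bset_iff, List.reverse_reverse, List.reverse_reverse]
      exact h
    · rintro ⟨v, hv, rfl⟩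
      rw [Set.Finite.mem_toFinset, bset_iff, List.reverse_reverse] at hv
      exact hv
  refine ⟨g.reverse, ?_, by rwa [← hval], fun he w => ?_⟩
  · rw [lc_iff, List.reverse_reverse, hcoe]
    exact h1
  · have h4 := h3 (by rw [hval]; exact he) w.reverse
    rw [lc_iff, List.reverse_append, List.reverse_reverse, hcoe]
    exact h4

end

end Pool.Agent.H86.OG
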