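import Pool.Agent.H86.OG.Few
import Pool.Agent.H72.OF.Alg
import Mathlib.Algebra.MvPolynomial.Nilpotent
import Mathlib.Topology.Algebra.MvPolynomial
import Mathlib.Topology.Order.IntermediateValue

/-!
# Signs and congruences
-/

set_option autoImplicit false

namespace Pool.Agent.H86.OG

open Finset
open Pool.Agent.H35
open Pool.Agent.H35.FC (gf)
open Pool.Agent.H72.OF (os sub sub_os)

section
variable {α : Type}

/-- Evaluation at the real point `l * t`. -/
noncomputable def rev (t : α → ℕ) (l : ℝ) : MvPolynomial α ℤ →+* ℝ :=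
  MvPolynomial.eval₂Hom (Int.castRingHom ℝ) (fun x => l * t x)

theorem rev_X (t : α → ℕ) (l : ℝ) (x : α) : rev t l (MvPolynomial.X x) = l * t x := by
  simp [rev]

theorem rev_one (t : α → ℕ) (p : MvPolynomial α ℤ) :
    rev t 1 p = ((MvPolynomial.eval (fun x => (t x : ℤ)) p : ℤ) : ℝ) := by
  have h : rev t 1 = (Int.castRingHom ℝ).comp (MvPolynomial.eval (fun x => (t x : ℤ))) := by
    apply MvPolynomial.ringHom_ext
    · intro r
      simp [rev]
    · intro x
      simp [rev]
  rw [h]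
  rfl

theorem rev_cont (t : α → ℕ) (p : MvPolynomial α ℤ) : Continuous fun l : ℝ => rev t l p := by
  have h : (fun l : ℝ => rev t l p) =
      (fun x : α → ℝ => MvPolynomial.eval x (MvPolynomial.map (Int.castRingHom ℝ) p)) ∘
        fun l : ℝ => fun z => l * t z := by
    funext l
    simp only [Function.comp]
    rw [MvPolynomial.eval_map]
    rfl
  rw [h]
  refine (MvPolynomial.continuous_eval _).comp ?_
  fun_prop

theorem rev_word {t : α → ℕ} (ht : ∀ x, 1 ≤ t x) {l : ℝ} (hl : 0 < l) (w : List α) :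
    0 < rev t l (w.map (MvPolynomial.X : α → MvPolynomial α ℤ)).prod := by
  induction w with
  | nil => simp
  | cons x w ih =>
    rw [List.map_cons, List.prod_cons, map_mul, rev_X]
    have h1 : (0 : ℝ) < t x := by
      have := ht x
      exact_mod_cast this
    exact mul_pos (mul_pos hl h1) ih

theorem rev_pos [DecidableEq α] {t : α → ℕ} (ht : ∀ x, 1 ≤ t x) {l : ℝ} (hl : 0 < l)
    {L : Finset (List α)} (hL : L.Nonempty) : 0 < rev t l (gf L) := by
  unfold gf
  rw [map_sum]
  exact Finset.sum_pos (fun w _ => rev_word ht hl w) hL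

variable [DecidableEq α] [Fintype α]

theorem rev_sub (y : α) (t : α → ℕ) (hT : 2 ≤ ∑ x, t x) (p : MvPolynomial α ℤ) :
    rev t (1 / ((∑ x, t x : ℕ) : ℝ)) (sub y p) = rev t (1 / ((∑ x, t x : ℕ) : ℝ)) p := by
  have hT0 : ((∑ x, t x : ℕ) : ℝ) ≠ 0 := by
    have : (∑ x, t x) ≠ 0 := by omega
    exact_mod_cast this
  have h : (rev t (1 / ((∑ x, t x : ℕ) : ℝ))).comp (sub y) = rev t (1 / ((∑ x, t x : ℕ) : ℝ)) := by
    apply MvPolynomial.ringHom_ext
    · intro r
      simp [sub, rev]
    · intro x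
      rw [RingHom.comp_apply]
      by_cases hx : x = y
      · subst hx
        have h1 : sub x (MvPolynomial.X x) =
            1 - ∑ z ∈ univ.erase x, (MvPolynomial.X z : MvPolynomial α ℤ) := by
          simp [sub]
        rw [h1, map_sub, map_one, map_sum]
        simp only [rev_X]
        rw [← Finset.mul_sum]
        have h2 : (t x : ℝ) + ∑ z ∈ univ.erase x, (t z : ℝ) = ((∑ x, t x : ℕ) : ℝ) := by
          rw [Finset.add_sum_erase univ (fun z => (t z : ℝ)) (Finset.mem_univ x)]
          push_cast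
          rfl
        have h3 : (∑ z ∈ univ.erase x, (t z : ℝ)) = ((∑ x, t x : ℕ) : ℝ) - t x := by linarith
        rw [h3]
        field_simp
        ring
      · have h1 : sub y (MvPolynomial.X x) = MvPolynomial.X x := by
          simp [sub, hx]
        rw [h1]
  exact DFunLike.congr_fun h p

theorem cong_sub (y : α) (t : α → ℕ) {m : ℕ} (hT : ∑ x, t x = m + 1) (p : MvPolynomial α ℤ) :
    (m : ℤ) ∣ MvPolynomial.eval (fun x => (t x : ℤ)) p -
      MvPolynomial.eval (fun x => (t x : ℤ)) (sub y p) := by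
  have h : ((Int.castRingHom (ZMod m)).comp (MvPolynomial.eval (fun x => (t x : ℤ)))).comp (sub y) =
      (Int.castRingHom (ZMod m)).comp (MvPolynomial.eval (fun x => (t x : ℤ))) := by
    apply MvPolynomial.ringHom_ext
    · intro r
      simp [sub]
    · intro x
      rw [RingHom.comp_apply]
      by_cases hx : x = y
      · subst hx
        have h1 : sub x (MvPolynomial.X x) =
            1 - ∑ z ∈ univ.erase x, (MvPolynomial.X z : MvPolynomial α ℤ) := by
          simp [sub]
        rw [h1, map_sub, map_one, map_sum]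
        have h2 : (t x : ZMod m) + ∑ z ∈ univ.erase x, (t z : ZMod m) = 1 := by
          rw [Finset.add_sum_erase univ (fun z => (t z : ZMod m)) (Finset.mem_univ x)]
          have h3 := congrArg (Nat.cast : ℕ → ZMod m) hT
          push_cast at h3
          rw [h3]
          simp
        have h4 : ∀ z : α, ((Int.castRingHom (ZMod m)).comp
            (MvPolynomial.eval (fun x => (t x : ℤ)))) (MvPolynomial.X z) = (t z : ZMod m) := by
          intro z
          simp
        simp only [h4]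
        rw [← h2]
        ring
      · have h1 : sub y (MvPolynomial.X x) = MvPolynomial.X x := by
          simp [sub, hx]
        rw [h1]
  have h5 := DFunLike.congr_fun h p
  have h6 : ((MvPolynomial.eval (fun x => (t x : ℤ)) (sub y p) : ℤ) : ZMod m) =
      ((MvPolynomial.eval (fun x => (t x : ℤ)) p : ℤ) : ZMod m) := h5
  exact (ZMod.intCast_eq_intCast_iff_dvd_sub _ _ _).1 h6

theorem side_sign (y : α) {t : α → ℕ} (ht : ∀ x, 1 ≤ t x) (hT : 2 ≤ ∑ x, t x)
    {L : Finset (List α)} (hL : L.Nonempty) {F a : MvPolynomial α ℤ} (h : gf L = F * a) {σ : ℤ}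
    (ha : sub y a = MvPolynomial.C σ) :
    0 < σ * MvPolynomial.eval (fun x => (t x : ℤ)) F := by
  set l0 : ℝ := 1 / ((∑ x, t x : ℕ) : ℝ) with hl0
  have hT0 : (2 : ℝ) ≤ ((∑ x, t x : ℕ) : ℝ) := by exact_mod_cast hT
  have hl0p : 0 < l0 := by positivity
  have hl01 : l0 ≤ 1 := by
    rw [hl0, div_le_one (by linarith)]
    linarith
  have hpos : ∀ l : ℝ, 0 < l → 0 < rev t l F * rev t l a := by
    intro l hl
    rw [← map_mul, ← h]
    exact rev_pos ht hl hL
  have hne : ∀ l : ℝ, 0 < l → rev t l F ≠ 0 := by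
    intro l hl h0
    have := hpos l hl
    rw [h0, zero_mul] at this
    exact lt_irrefl _ this
  have h1 : rev t l0 a = σ := by
    rw [hl0, ← rev_sub y t hT, ha]
    simp [rev]
  have h2 : 0 < (σ : ℝ) * rev t l0 F := by
    have := hpos l0 hl0p
    rw [h1] at this
    linarith [mul_comm (rev t l0 F) (σ : ℝ)]
  have h3 : 0 < (σ : ℝ) * rev t 1 F := by
    by_contra hn
    have hn := not_lt.1 hn
    have hc : ContinuousOn (fun l : ℝ => (σ : ℝ) * rev t l F) (Set.Icc l0 1) :=
      (continuous_const.mul (rev_cont t F)).continuousOn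
    obtain ⟨l, hl, h0⟩ := intermediate_value_Icc' hl01 hc ⟨hn, h2.le⟩
    have hσ : (σ : ℝ) ≠ 0 := by
      intro h0
      rw [h0, zero_mul] at h2
      exact lt_irrefl _ h2
    rcases mul_eq_zero.1 h0 with h4 | h4
    · exact hσ h4
    · exact hne l (lt_of_lt_of_le hl0p hl.1) h4
  rw [rev_one] at h3
  exact_mod_cast h3

theorem side_val (y : α) {t : α → ℕ} (ht : ∀ x, 1 ≤ t x) (hT : 2 ≤ ∑ x, t x)
    {L : Finset (List α)} (hL : L.Nonempty) {F a : MvPolynomial α ℤ} (h : gf L = F * a) {σ : ℤ}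
    (hσ : σ * σ = 1) (ha : sub y a = MvPolynomial.C σ) :
    ∃ n : ℕ, MvPolynomial.eval (fun x => (t x : ℤ)) a =
      σ * (1 + ((∑ x, t x : ℕ) - 1) * n) := by
  obtain ⟨m, hm⟩ : ∃ m, ∑ x, t x = m + 1 := ⟨∑ x, t x - 1, by omega⟩
  have h1 := side_sign y ht hT hL h ha
  have h2 : 0 < MvPolynomial.eval (fun x => (t x : ℤ)) F * MvPolynomial.eval (fun x => (t x : ℤ)) a := by
    rw [← map_mul, ← h, eval_gf]
    have := vals_pos ht hL
    exact_mod_cast this
  obtain ⟨q, hq⟩ := cong_sub y t hm a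
  rw [ha, MvPolynomial.eval_C] at hq
  set Fv := MvPolynomial.eval (fun x => (t x : ℤ)) F with hFv
  set av := MvPolynomial.eval (fun x => (t x : ℤ)) a with hav
  have h3 : 0 < σ * av := by
    have h4 : 0 < (σ * Fv) * (σ * av) := by
      have : (σ * Fv) * (σ * av) = σ * σ * (Fv * av) := by ring
      rw [this, hσ, one_mul]
      exact h2
    exact (mul_pos_iff_of_pos_left h1).1 h4
  have h5 : σ * av = 1 + m * (σ * q) := by
    have : av = σ + m * q := by linarith
    rw [this]
    have : σ * (σ + m * q) = σ * σ + m * (σ * q) := by ring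
    rw [this, hσ]
  have hm1 : (1 : ℤ) ≤ m := by
    have : 1 ≤ m := by omega
    exact_mod_cast this
  have h6 : 0 ≤ σ * q := by
    by_contra hn
    have hn : σ * q ≤ -1 := by omega
    nlinarith
  refine ⟨(σ * q).toNat, ?_⟩
  rw [Int.toNat_of_nonneg h6, hm]
  have h7 : av = σ * (σ * av) := by
    have : σ * (σ * av) = σ * σ * av := by ring
    rw [this, hσ, one_mul]
  rw [h7, h5]
  push_cast
  ring

/-- The values of two factors. -/
theorem sign_congr (t : α → ℕ) (ht : ∀ x, 1 ≤ t x) (hT : 2 ≤ ∑ x, t x)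
    {ι κ : Type} [Nonempty ι] [Nonempty κ] (A : ι → Finset (List α)) (B : κ → Finset (List α))
    (hA : ∀ i, (A i).Nonempty) (hB : ∀ j, (B j).Nonempty)
    (F G : MvPolynomial α ℤ) (N : ι → κ → MvPolynomial α ℤ)
    (hF : ∀ i, F ∣ gf (A i)) (hG : ∀ j, G ∣ gf (B j)) (hFG0 : F * G ≠ 0)
    (hGF : ∀ i j, gf (A i) * gf (B j) = F * G * (1 - os α * N i j)) :
    ∃ u v : ℕ, 1 ≤ u ∧ 1 ≤ v ∧
      MvPolynomial.eval (fun x => (t x : ℤ)) (F * G) = (u : ℤ) * v ∧
      (∀ i, ∃ a : ℕ, MvPolynomial.eval (fun x => (t x : ℤ)) (gf (A i)) =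
        (u : ℤ) * (1 + ((∑ x, t x : ℕ) - 1) * a)) ∧
      (∀ j, ∃ b : ℕ, MvPolynomial.eval (fun x => (t x : ℤ)) (gf (B j)) =
        (v : ℤ) * (1 + ((∑ x, t x : ℕ) - 1) * b)) := by
  have hne : Nonempty α := by
    by_contra hn
    rw [not_nonempty_iff] at hn
    rw [Finset.univ_eq_empty, Finset.sum_empty] at hT
    omega
  obtain ⟨y⟩ := hne
  choose a ha using hF
  choose b hb using hG
  have hab : ∀ i j, a i * b j = 1 - os α * N i j := by
    intro i j
    have h1 := hGF i j
    rw [ha i, hb j] at h1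
    have h2 : F * G * (a i * b j) = F * G * (1 - os α * N i j) := by
      rw [← h1]; ring
    exact mul_left_cancel₀ hFG0 h2
  have hsub : ∀ i j, sub y (a i) * sub y (b j) = 1 := by
    intro i j
    rw [← map_mul, hab, map_sub, map_mul, sub_os, zero_mul, map_one, sub_zero]
  obtain ⟨i0⟩ := ‹Nonempty ι›
  obtain ⟨j0⟩ := ‹Nonempty κ›
  obtain ⟨σ, hσu, hσ⟩ := MvPolynomial.isUnit_iff_eq_C_of_isReduced.1
    (IsUnit.of_mul_eq_one _ (hsub i0 j0))
  have hσσ : σ * σ = 1 := by
    rcases Int.isUnit_iff.1 hσu with h | h <;> rw [h] <;> norm_num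
  have hCC : (MvPolynomial.C σ : MvPolynomial α ℤ) * MvPolynomial.C σ = 1 := by
    rw [← MvPolynomial.C_mul, hσσ, MvPolynomial.C_1]
  have hbC : ∀ j, sub y (b j) = MvPolynomial.C σ := by
    intro j
    have h1 := hsub i0 j
    rw [hσ] at h1
    calc sub y (b j) = (MvPolynomial.C σ * MvPolynomial.C σ) * sub y (b j) := by rw [hCC, one_mul]
      _ = MvPolynomial.C σ * (MvPolynomial.C σ * sub y (b j)) := by ring
      _ = MvPolynomial.C σ := by rw [h1, mul_one]
  have haC : ∀ i, sub y (a i) = MvPolynomial.C σ := by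
    intro i
    have h1 := hsub i j0
    rw [hbC] at h1
    calc sub y (a i) = sub y (a i) * (MvPolynomial.C σ * MvPolynomial.C σ) := by rw [hCC, mul_one]
      _ = (sub y (a i) * MvPolynomial.C σ) * MvPolynomial.C σ := by ring
      _ = MvPolynomial.C σ := by rw [h1, one_mul]
  have hFp := side_sign y ht hT (hA i0) (ha i0) (haC i0)
  have hGp := side_sign y ht hT (hB j0) (hb j0) (hbC j0)
  refine ⟨(σ * MvPolynomial.eval (fun x => (t x : ℤ)) F).toNat,
    (σ * MvPolynomial.eval (fun x => (t x : ℤ)) G).toNat, by omega, by omega, ?_, ?_, ?_⟩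
  · rw [Int.toNat_of_nonneg hFp.le, Int.toNat_of_nonneg hGp.le, map_mul]
    have : ∀ f g : ℤ, (σ * f) * (σ * g) = σ * σ * (f * g) := by intro f g; ring
    rw [this, hσσ, one_mul]
  · intro i
    obtain ⟨n, hn⟩ := side_val y ht hT (hA i) (ha i) hσσ (haC i)
    refine ⟨n, ?_⟩
    rw [ha i, map_mul, hn, Int.toNat_of_nonneg hFp.le]
    ring
  · intro j
    obtain ⟨n, hn⟩ := side_val y ht hT (hB j) (hb j) hσσ (hbC j)
    refine ⟨n, ?_⟩
    rw [hb j, map_mul, hn, Int.toNat_of_nonneg hGp.le]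
    ring

end

end Pool.Agent.H86.OG
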