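import Pool.Agent.H86.OG.Climb
import Pool.Agent.H86.OG.Til
import Pool.Agent.H86.OG.Sign

/-!
# Assembly: codes with few words
-/

set_option autoImplicit false

namespace Pool.Agent.H86.OG

open MvPolynomial
open Pool.Agent.H35
open Pool.Agent.H35.FC (IsCode IsPrefixCode Facts Tiles gf SGf STree of_tiles)
open Pool.Agent.H35.FS (SMax st_last)

/-- Such a code is factorizing, or its values are products. -/
theorem fewP (hgf : SGf) {α : Type} [Fintype α] [DecidableEq α] [Nonempty α]
    {C S P N : Finset (List α)} (hC : IsCode (C : Set (List α)))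
    (hT : Tiles (C : Set (List α)) S P N) (t : α → ℕ) (τ : ℕ) (hτ : 1 ≤ τ) (hτt : ∀ x, τ ≤ t x)
    (hT2 : 2 ≤ ∑ x, t x) :
    (∃ S P : Set (List α), S.Finite ∧ P.Finite ∧ Tiles (C : Set (List α)) S P ∅) ∨
    ∃ u v : ℕ, τ + 1 ≤ u ∧ τ * (∑ x, t x) + 1 ≤ v ∧
      vals t C = 1 + ((∑ x, t x) - 1) * (u * v) := by
  have ht : ∀ x, 1 ≤ t x := fun x => hτ.trans (hτt x)
  obtain ⟨L, hL⟩ : ∃ L : ℕ, ∀ w ∈ C ∪ S ∪ P ∪ N, w.length ≤ L :=
    ⟨(C ∪ S ∪ P ∪ N).sup List.length, fun w hw => Finset.le_sup (f := List.length) hw⟩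
  have hB : Base (C : Set (List α)) (S : Set (List α)) (P : Set (List α)) (N : Set (List α)) L :=
    ⟨hC, hT, fun w hw => hL w (by
      simp only [Finset.mem_union]
      exact Or.inl (Or.inl (Or.inl (by exact_mod_cast hw)))), fun w hw => hL w (by
      simp only [Finset.mem_union]
      exact Or.inl (Or.inl (Or.inr (by exact_mod_cast hw)))), fun w hw => hL w (by
      simp only [Finset.mem_union]
      exact Or.inl (Or.inr (by exact_mod_cast hw))), fun w hw => hL w (by
      simp only [Finset.mem_union]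
      exact Or.inr (by exact_mod_cast hw))⟩
  by_cases hN : ∃ g f, Nset (C : Set (List α)) S P g f = ∅
  · obtain ⟨g, f, hgf⟩ := hN
    left
    refine ⟨Aset C S g, Bset C P f, aset_finite hB g, bset_finite hB f, ?_⟩
    rw [← hgf]
    exact partP hB g f
  right
  have hne : ∀ g f, (Nset (C : Set (List α)) S P g f).Nonempty := by
    intro g f
    rw [Set.nonempty_iff_ne_empty]
    exact fun h => hN ⟨g, f, h⟩
  have hPne : (P : Set (List α)).Nonempty := by
    obtain ⟨y⟩ := ‹Nonempty α›
    obtain ⟨t, ht⟩ := exists_fact hB [] [] (w := List.replicate (L + 1) y) (by simp)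
    obtain ⟨k, -, p, hp, -⟩ := lc_of_bset ht.2.2.1
    exact ⟨p, hp⟩
  have hSne : (S : Set (List α)).Nonempty := by
    obtain ⟨y⟩ := ‹Nonempty α›
    obtain ⟨t, ht⟩ := exists_fact hB [] [] (w := List.replicate (L + 1) y) (by simp)
    obtain ⟨s, hs, -⟩ := rc_of_aset ht.1
    exact ⟨s, hs⟩
  -- the polynomials
  have hos0 : H72.OF.os α ≠ 0 := FY.one_sub_ne
  have hgf' : ∀ g f, 1 - gf C = H72.OF.os α * ((1 - gf C) * gf (nset_finite hB g f).toFinset +
      gf (aset_finite hB g).toFinset * gf (bset_finite hB f).toFinset) := by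
    intro g f
    refine hgf α C _ _ _ hC ?_
    simpa only [Set.Finite.coe_toFinset] using partP hB g f
  obtain ⟨Q, hQ⟩ : ∃ Q, Q = (1 - gf C) * gf (nset_finite hB [] []).toFinset +
      gf (aset_finite hB []).toFinset * gf (bset_finite hB []).toFinset := ⟨_, rfl⟩
  have hcQ : 1 - gf C = H72.OF.os α * Q := by rw [hQ]; exact hgf' [] []
  have hGF : ∀ g f, gf (aset_finite hB g).toFinset * gf (bset_finite hB f).toFinset =
      Q * (1 - H72.OF.os α * gf (nset_finite hB g f).toFinset) := by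
    intro g f
    have h1 := hgf' g f
    rw [hcQ] at h1
    have h2 := mul_left_cancel₀ hos0 h1
    linear_combination -h2
  have hC0 : 1 - gf C ≠ 0 := by
    intro h
    have h1 := congrArg (coeff 0) h
    rw [coeff_sub, coeff_one, if_pos rfl, coeff_zero, H72.OF.coeff_gf] at h1
    have h2 : (C.filter (fun w => H72.OF.vec w = 0)).card = 0 := by
      rw [Finset.card_eq_zero, Finset.filter_eq_empty_iff]
      intro w hw h3
      have hw0 : w = [] := by
        rcases w with _ | ⟨x, w⟩
        · rfl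
        · have h4 := H72.OF.vec_apply (x :: w) x
          rw [h3, List.count_cons_self] at h4
          simp at h4
      rw [hw0] at hw
      exact hC.1 (by exact_mod_cast hw)
    rw [h2] at h1
    norm_num at h1
  have hQ0 : Q ≠ 0 := by
    intro h
    rw [h, mul_zero] at hcQ
    exact hC0 hcQ
  obtain ⟨F, G, hFG, hF, hG⟩ := OF.split_dvd Q hQ0
    (fun g => gf (aset_finite hB g).toFinset) (fun f => gf (bset_finite hB f).toFinset)
    (fun g f => by
      rw [hGF g f]
      exact dvd_mul_right _ _)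
  obtain ⟨u, v, hu, hv, huv, hAv, hBv⟩ := sign_congr t ht hT2
    (fun g => (aset_finite hB g).toFinset) (fun f => (bset_finite hB f).toFinset)
    (fun g => by
      obtain ⟨v, hv⟩ := aset_nonempty hB g
      exact ⟨v, (Set.Finite.mem_toFinset _).2 hv⟩)
    (fun f => by
      obtain ⟨v, hv⟩ := bset_nonempty hB f
      exact ⟨v, (Set.Finite.mem_toFinset _).2 hv⟩)
    F G (fun g f => gf (nset_finite hB g f).toFinset) hF hG (by rw [← hFG]; exact hQ0)
    (fun g f => by rw [hGF g f, hFG])
  obtain ⟨T, hTe⟩ : ∃ T, ∑ x, t x = T + 1 := ⟨(∑ x, t x) - 1, by omega⟩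
  have hT1 : 1 ≤ T := by omega
  have hev : eval (fun x => (t x : ℤ)) (H72.OF.os α) = -(T : ℤ) := by
    unfold H72.OF.os
    rw [map_sub, map_one, map_sum]
    simp only [eval_X]
    have : (∑ x, (t x : ℤ)) = ((T + 1 : ℕ) : ℤ) := by rw [← hTe]; push_cast; rfl
    rw [this]
    push_cast
    ring
  have hcv : vals t C = 1 + T * (u * v) := by
    have h1 := congrArg (eval (fun x => (t x : ℤ))) hcQ
    rw [map_sub, map_one, eval_gf, map_mul, hev, hFG, huv] at h1
    have h2 : (vals t C : ℤ) = ((1 + T * (u * v) : ℕ) : ℤ) := by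
      push_cast
      linear_combination -h1
    exact_mod_cast h2
  have hcv' : vals t C = 1 + ((∑ x, t x) - 1) * (u * v) := by
    rw [hTe, Nat.add_sub_cancel]
    exact hcv
  rw [hTe] at hAv hBv
  have hA' : ∀ g, ∃ a : ℕ, aval hB t g = u * (1 + T * a) := by
    intro g
    obtain ⟨a, ha⟩ := hAv g
    refine ⟨a, ?_⟩
    rw [eval_gf] at ha
    unfold aval
    have h2 : (vals t (aset_finite hB g).toFinset : ℤ) = ((u * (1 + T * a) : ℕ) : ℤ) := by
      rw [ha]
      push_cast
      ring
    exact_mod_cast h2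
  have hB' : ∀ f, ∃ b : ℕ, bval hB t f = v * (1 + T * b) := by
    intro f
    obtain ⟨b, hb⟩ := hBv f
    refine ⟨b, ?_⟩
    rw [eval_gf] at hb
    unfold bval
    have h2 : (vals t (bset_finite hB f).toFinset : ℤ) = ((v * (1 + T * b) : ℕ) : ℤ) := by
      rw [hb]
      push_cast
      ring
    exact_mod_cast h2
  obtain ⟨g, hgm⟩ := exists_min hB t
  have hg1 := min_rc hB hPne ht hT1 hTe hcv hgm
  obtain ⟨f, hf1, hf2⟩ := climbB hB hSne hτ hτt hT1 hTe hcv
  obtain ⟨w, hw⟩ := hne g f
  have hg2 : τ * aval hB t g < u * v := climb hB hPne hτ hτt hT1 hTe hcv hgm (w := w) (fun h =>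
    ncut (u1 := w) (u2 := []) hC (by rwa [List.append_nil]) h (by rwa [List.nil_append]))
  have hf3 : τ * bval hB t f < u * v := hf2 ⟨w, fun h =>
    ncut (u1 := []) (u2 := w) hC (by rwa [List.nil_append]) (by rwa [List.append_nil]) h⟩
  obtain ⟨a, ha⟩ := hA' g
  obtain ⟨b, hb⟩ := hB' f
  have hav : τ * (1 + T * a) < v := by
    rw [ha] at hg2
    have h1 : τ * (u * (1 + T * a)) = u * (τ * (1 + T * a)) := by ring
    rw [h1] at hg2
    exact Nat.lt_of_mul_lt_mul_left hg2
  have hbu : τ * (1 + T * b) < u := by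
    rw [hb] at hf3
    have h1 : τ * (v * (1 + T * b)) = v * (τ * (1 + T * b)) := by ring
    rw [h1, mul_comm u v] at hf3
    exact Nat.lt_of_mul_lt_mul_left hf3
  -- one of them is larger
  have hprod : 1 ≤ a ∨ 1 ≤ b := by
    by_contra hcon
    push Not at hcon
    have ha0 : a = 0 := by omega
    have hb0 : b = 0 := by omega
    have h1 := congrArg (eval (fun x => (t x : ℤ))) (hGF g f)
    rw [map_mul, eval_gf, eval_gf, map_mul, map_sub, map_one, map_mul, hev, eval_gf, hFG,
      huv] at h1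
    have h2 : 1 ≤ vals t (nset_finite hB g f).toFinset := by
      obtain ⟨w, hw⟩ := hne g f
      exact vals_pos ht ⟨w, (Set.Finite.mem_toFinset _).2 hw⟩
    have h3 : vals t (aset_finite hB g).toFinset = u := by
      have h4 := ha
      rw [ha0] at h4
      unfold aval at h4
      rw [h4]
      ring
    have h5 : vals t (bset_finite hB f).toFinset = v := by
      have h4 := hb
      rw [hb0] at h4
      unfold bval at h4
      rw [h4]
      ring
    rw [h3, h5] at h1
    have h6 : (u : ℤ) * v * (T * (vals t (nset_finite hB g f).toFinset : ℤ)) = 0 := by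
      linear_combination -h1
    have h7 : 0 < (u : ℤ) * v * (T * (vals t (nset_finite hB g f).toFinset : ℤ)) := by
      have e1 : (0 : ℤ) < u := by exact_mod_cast hu
      have e2 : (0 : ℤ) < v := by exact_mod_cast hv
      have e3 : (0 : ℤ) < T := by exact_mod_cast hT1
      have e4 : (0 : ℤ) < (vals t (nset_finite hB g f).toFinset : ℤ) := by exact_mod_cast h2
      positivity
    omega
  have hmono : ∀ c : ℕ, τ ≤ τ * (1 + T * c) := by
    intro c
    have : τ * 1 ≤ τ * (1 + T * c) := Nat.mul_le_mul_left _ (by omega)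
    omega
  have hmono1 : ∀ c : ℕ, 1 ≤ c → τ * (T + 1) ≤ τ * (1 + T * c) := by
    intro c hc
    refine Nat.mul_le_mul_left _ ?_
    have : T * 1 ≤ T * c := Nat.mul_le_mul_left _ hc
    omega
  rcases hprod with h | h
  · refine ⟨u, v, ?_, ?_, hcv'⟩
    · have := hmono b
      omega
    · rw [hTe]
      have := hmono1 a h
      omega
  · refine ⟨v, u, ?_, ?_, by rw [mul_comm v u]; exact hcv'⟩
    · have := hmono a
      omega
    · rw [hTe]
      have := hmono1 b h
      omega

/-- The dichotomy for finite maximal codes. -/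
theorem fewG (hTil : STil) (hMax : SMax) (hGf : SGf) (hTree : STree)
    {α : Type} [Fintype α] [DecidableEq α] (C : Finset (List α))
    (hC : IsCode (C : Set (List α)))
    (hmax : ∀ D : Set (List α), IsCode D → (C : Set (List α)) ⊆ D → D = C)
    (t : α → ℕ) (τ : ℕ) (hτ : 1 ≤ τ) (hτt : ∀ x, τ ≤ t x) (hT2 : 2 ≤ ∑ x, t x) :
    ((∃ S P : Set (List α), S.Finite ∧ P.Finite ∧ Tiles (C : Set (List α)) S P ∅) ∧
    ∃ D : Finset (List α), IsPrefixCode (D : Set (List α)) ∧
      ∃ F : List α → List α, Set.BijOn F C D ∧ ∀ w ∈ C, (F w).Perm w) ∨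
    ∃ u v : ℕ, τ + 1 ≤ u ∧ τ * (∑ x, t x) + 1 ≤ v ∧
      ∑ w ∈ C, (w.map t).prod = 1 + ((∑ x, t x) - 1) * (u * v) := by
  have hcomp := hMax α C hC hmax
  have hne : Nonempty α := by
    by_contra hcon
    rw [not_nonempty_iff] at hcon
    rw [Finset.univ_eq_empty, Finset.sum_empty] at hT2
    omega
  obtain ⟨S0, P0, N0, hT0, -, -⟩ := hTil α C hC hcomp
  rcases fewP hGf hC hT0 t τ hτ hτt hT2 with ⟨S, P, hSf, hPf, hT⟩ | h
  · exact Or.inl ⟨⟨S, P, hSf, hPf, hT⟩, of_tiles hGf hTree C hC S P hSf hPf hT⟩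
  · exact Or.inr h

end Pool.Agent.H86.OG
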